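import Mathlib

/-!
# Counting with a set all of whose small elements are sums of two members in many ways
-/

set_option autoImplicit false

namespace Pool.Agent.Y374.RP.Cnt

open Finset

variable (R : ℕ → Prop) [DecidablePred R]

/-- the number of `i`, `0 < i < N`, such that `i` and `N - i` have the property `R` -/
def rr (N : ℕ) : ℕ := ((Ioo 0 N).filter (fun i => R i ∧ R (N - i))).card

/-- the hypothesis -/
def Hyp (L : ℕ) : Prop := ∀ N, 2 ≤ N → N ≤ L → 2 * N ≤ (2 * rr R N + 1) * (3 * rr R N + 1)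

variable {R}

lemma Hyp.pos {L : ℕ} (H : Hyp R L) {N : ℕ} (h2 : 2 ≤ N) (hN : N ≤ L) : 1 ≤ rr R N := by
  have h := H N h2 hN
  by_contra h'
  have h0 : rr R N = 0 := by omega
  rw [h0] at h
  omega

lemma Hyp.sq {L : ℕ} (H : Hyp R L) {N : ℕ} (h2 : 2 ≤ N) (hN : N ≤ L) : N ≤ 6 * rr R N ^ 2 := by
  have h1 := H.pos h2 hN
  have h3 := H N h2 hN
  nlinarith

variable (R)

/-- the elements of the set up to `M` -/
def SS (M : ℕ) : Finset ℕ := (Icc 1 M).filter R

lemma sum_rr (M : ℕ) : ∑ N ∈ Icc 2 M, rr R N ≤ (SS R M).card ^ 2 := by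
  classical
  rw [pow_two, ← card_product]
  unfold rr
  rw [← card_sigma]
  refine card_le_card_of_injOn (fun x => (x.2, x.1 - x.2)) ?_ ?_
  · rintro ⟨N, i⟩ hx
    rw [mem_coe, mem_sigma, mem_Icc, mem_filter, mem_Ioo] at hx
    simp only at hx
    obtain ⟨⟨h1, h2⟩, ⟨h3, h4⟩, h5, h6⟩ := hx
    rw [mem_coe, mem_product]
    unfold SS
    rw [mem_filter, mem_filter, mem_Icc, mem_Icc]
    simp only
    exact ⟨⟨by omega, h5⟩, ⟨by omega, h6⟩⟩
  · rintro ⟨N, i⟩ hx ⟨N', i'⟩ hx' he
    rw [mem_coe, mem_sigma, mem_Icc, mem_filter, mem_Ioo] at hx hx'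
    simp only at hx hx'
    simp only [Prod.mk.injEq] at he
    obtain ⟨e1, e2⟩ := he
    subst e1
    have : N = N' := by omega
    subst this
    rfl

lemma sqrt_sum (M : ℕ) (hM : 1 ≤ M) :
    (2 / 3 : ℝ) * ((M : ℝ) * √(M : ℝ) - 1) ≤ ∑ N ∈ Icc 2 M, √(N : ℝ) := by
  induction M, hM using Nat.le_induction with
  | base => simp
  | succ M hM ih =>
    rw [Finset.sum_Icc_succ_top (by omega)]
    have h1 : (√((M : ℝ) + 1)) ^ 2 = (M : ℝ) + 1 := Real.sq_sqrt (by positivity)
    have h2 : (√(M : ℝ)) ^ 2 = (M : ℝ) := Real.sq_sqrt (by positivity)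
    set a := √((M : ℝ) + 1) with ha
    set b := √(M : ℝ) with hb
    have h3 : 0 ≤ a := Real.sqrt_nonneg _
    have h4 : 0 ≤ b := Real.sqrt_nonneg _
    have h5 : 0 ≤ (a - b) ^ 2 * (a + 2 * b) := by positivity
    have e1 : ((M : ℝ) + 1) * a = a ^ 3 := by rw [← h1]; ring
    have e2 : (M : ℝ) * b = b ^ 3 := by
      conv_lhs => rw [← h2]
      ring
    have e3 : a * (a ^ 2 - b ^ 2) = a := by
      rw [h1, h2]
      ring
    push_cast
    rw [e2] at ih
    rw [← ha, e1]
    nlinarith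

variable {R}

theorem count {L : ℕ} (H : Hyp R L) (h1 : 1 ≤ L → R 1) {M : ℕ} (hM : M ≤ L) :
    M ^ 3 ≤ 16 * (SS R M).card ^ 4 := by
  classical
  rcases Nat.lt_or_ge M 6 with h6 | h6
  · rcases Nat.lt_or_ge M 3 with h3 | h3
    · rcases Nat.eq_zero_or_pos M with h0 | h0
      · subst h0
        simp
      · have : 1 ≤ (SS R M).card := by
          rw [Nat.one_le_iff_ne_zero, Ne, card_eq_zero, ← Ne, ← nonempty_iff_ne_empty]
          refine ⟨1, ?_⟩
          unfold SS
          rw [mem_filter, mem_Icc]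
          exact ⟨by omega, h1 (by omega)⟩
        have e : 1 ^ 4 ≤ (SS R M).card ^ 4 := Nat.pow_le_pow_left this 4
        have e' : M ^ 3 ≤ 2 ^ 3 := Nat.pow_le_pow_left (by omega) 3
        omega
    · have h2 : R 2 := by
        have hp := H.pos (N := 3) (by omega) (by omega)
        unfold rr at hp
        obtain ⟨i, hi⟩ := card_pos.1 hp
        rw [mem_filter, mem_Ioo] at hi
        obtain ⟨⟨i1, i2⟩, i3, i4⟩ := hi
        rcases Nat.lt_or_ge i 2 with h | h
        · have : i = 1 := by omega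
          subst this
          exact i4
        · have : i = 2 := by omega
          subst this
          exact i3
      have : 2 ≤ (SS R M).card := by
        have hsub : ({1, 2} : Finset ℕ) ⊆ SS R M := by
          intro x hx
          unfold SS
          rw [mem_filter, mem_Icc]
          rw [mem_insert, mem_singleton] at hx
          rcases hx with rfl | rfl
          · exact ⟨by omega, h1 (by omega)⟩
          · exact ⟨by omega, h2⟩
        have := card_le_card hsub
        simpa using this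
      have e : 2 ^ 4 ≤ (SS R M).card ^ 4 := Nat.pow_le_pow_left this 4
      have e' : M ^ 3 ≤ 5 ^ 3 := Nat.pow_le_pow_left (by omega) 3
      omega
  · have hs := sum_rr R M
    have hsum := sqrt_sum M (by omega)
    have hle : ∑ N ∈ Icc 2 M, √(N : ℝ) ≤ √6 * ∑ N ∈ Icc 2 M, (rr R N : ℝ) := by
      rw [mul_sum]
      refine sum_le_sum fun N hN => ?_
      rw [mem_Icc] at hN
      have h := H.sq hN.1 (by omega)
      have h' : (N : ℝ) ≤ 6 * (rr R N : ℝ) ^ 2 := by exact_mod_cast h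
      calc √(N : ℝ) ≤ √(6 * (rr R N : ℝ) ^ 2) := Real.sqrt_le_sqrt h'
        _ = √6 * (rr R N : ℝ) := by
          rw [Real.sqrt_mul (by norm_num), Real.sqrt_sq (by positivity)]
    have hs' : (∑ N ∈ Icc 2 M, (rr R N : ℝ)) ≤ ((SS R M).card : ℝ) ^ 2 := by
      have : ((∑ N ∈ Icc 2 M, rr R N : ℕ) : ℝ) ≤ (((SS R M).card ^ 2 : ℕ) : ℝ) := by
        exact_mod_cast hs
      push_cast at this
      exact this
    set s : ℝ := ((SS R M).card : ℝ) with hsd
    set u : ℝ := (M : ℝ) * √(M : ℝ) with hu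
    have hu2 : u ^ 2 = (M : ℝ) ^ 3 := by
      rw [hu, mul_pow, Real.sq_sqrt (by positivity)]
      ring
    have h66 : √(6 : ℝ) ^ 2 = 6 := Real.sq_sqrt (by norm_num)
    have hm6 : (6 : ℝ) ≤ (M : ℝ) := by exact_mod_cast h6
    have hu14 : 14 ≤ u := by
      by_contra hlt
      push Not at hlt
      have hu0 : 0 ≤ u := by positivity
      have : u ^ 2 < 14 ^ 2 := by nlinarith
      rw [hu2] at this
      have : (6 : ℝ) ^ 3 ≤ (M : ℝ) ^ 3 := pow_le_pow_left₀ (by norm_num) hm6 3
      norm_num at *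
      linarith
    have hs0 : 0 ≤ s := by positivity
    have hk : (2 / 3 : ℝ) * (u - 1) ≤ √6 * s ^ 2 :=
      (hsum.trans hle).trans (mul_le_mul_of_nonneg_left hs' (Real.sqrt_nonneg _))
    have hk2 : ((2 / 3 : ℝ) * (u - 1)) ^ 2 ≤ (√6 * s ^ 2) ^ 2 :=
      pow_le_pow_left₀ (by nlinarith) hk 2
    rw [mul_pow, mul_pow, h66, ← pow_mul] at hk2
    have hfin : u ^ 2 ≤ 16 * s ^ 4 := by
      norm_num at hk2
      nlinarith
    rw [hu2, hsd] at hfin
    exact_mod_cast hfin

variable (R)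

/-- the ordered representations of `N` as a sum of `h` numbers which are `0` or have the property `R` -/
def T (h N : ℕ) : Finset (Fin h → ℕ) :=
  (Finset.Nat.antidiagonalTuple h N).filter (fun x => ∀ i, x i = 0 ∨ R (x i))

lemma T_succ (h N M : ℕ) (hM : M ≤ N) :
    ∑ m ∈ insert 0 (SS R M), (T R h (N - m)).card ≤ (T R (h + 1) N).card := by
  classical
  rw [← card_sigma]
  refine card_le_card_of_injOn (fun x => Fin.cons x.1 x.2) ?_ ?_
  · rintro ⟨m, x⟩ hx
    rw [mem_coe, mem_sigma] at hx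
    obtain ⟨h1, h2⟩ := hx
    simp only at h1 h2
    have h1' : m ≤ M ∧ (m = 0 ∨ R m) := by
      unfold SS at h1
      rw [mem_insert, mem_filter, mem_Icc] at h1
      rcases h1 with h1 | h1
      · exact ⟨by omega, Or.inl h1⟩
      · exact ⟨h1.1.2, Or.inr h1.2⟩
    unfold T at h2
    rw [mem_filter, Finset.Nat.mem_antidiagonalTuple] at h2
    rw [mem_coe]
    unfold T
    rw [mem_filter, Finset.Nat.mem_antidiagonalTuple]
    refine ⟨?_, ?_⟩
    · simp only
      rw [Fin.sum_univ_succ]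
      simp only [Fin.cons_zero, Fin.cons_succ]
      omega
    · intro i
      refine Fin.cases ?_ (fun j => ?_) i
      · simpa using h1'.2
      · simpa using h2.2 j
  · rintro ⟨m, x⟩ _ ⟨m', x'⟩ _ he
    simp only at he
    obtain ⟨e1, e2⟩ := Fin.cons_inj.1 he
    subst e1
    subst e2
    rfl

variable {R}

theorem T_two {L : ℕ} (H : Hyp R L) (h1 : 1 ≤ L → R 1) {N : ℕ} (hN : N ≤ L) :
    N ^ 2 ≤ 36 * (T R 2 N).card ^ 4 := by
  classical
  rcases Nat.lt_or_ge N 2 with h2 | h2
  · rcases Nat.eq_zero_or_pos N with h0 | h0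
    · subst h0
      simp
    · have e1 : N = 1 := by omega
      subst e1
      have : 1 ≤ (T R 2 1).card := by
        rw [Nat.one_le_iff_ne_zero, Ne, card_eq_zero, ← Ne, ← nonempty_iff_ne_empty]
        refine ⟨![0, 1], ?_⟩
        unfold T
        rw [mem_filter, Finset.Nat.mem_antidiagonalTuple]
        refine ⟨by simp, fun i => ?_⟩
        fin_cases i
        · left
          simp
        · right
          simpa using h1 (by omega)
      have e : 1 ^ 4 ≤ (T R 2 1).card ^ 4 := Nat.pow_le_pow_left this 4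
      omega
  · have h3 := H.sq h2 hN
    have h4 : rr R N ≤ (T R 2 N).card := by
      unfold rr
      refine card_le_card_of_injOn (fun i => ![i, N - i]) ?_ ?_
      · intro i hi
        rw [mem_coe, mem_filter, mem_Ioo] at hi
        rw [mem_coe]
        unfold T
        rw [mem_filter, Finset.Nat.mem_antidiagonalTuple]
        refine ⟨?_, fun j => ?_⟩
        · rw [Fin.sum_univ_two]
          simp only [Matrix.cons_val_zero, Matrix.cons_val_one]
          omega
        · fin_cases j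
          · right
            simpa using hi.2.1
          · right
            simpa using hi.2.2
      · intro i _ j _ he
        have := congrFun he 0
        simpa using this
    calc N ^ 2 ≤ (6 * rr R N ^ 2) ^ 2 := Nat.pow_le_pow_left h3 2
      _ = 36 * rr R N ^ 4 := by ring
      _ ≤ 36 * (T R 2 N).card ^ 4 := Nat.mul_le_mul_left _ (Nat.pow_le_pow_left h4 4)

theorem step {L : ℕ} (H : Hyp R L) (h1 : 1 ≤ L → R 1) (h C : ℕ) (hh : 2 ≤ h) {N : ℕ} (hN : N ≤ L)
    (hC : ∀ M, M ≤ N → M ^ (3 * h - 4) ≤ C * (T R h M).card ^ 4) :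
    N ^ (3 * (h + 1) - 4) ≤ (432 * 2 ^ (3 * h - 4) * C) * (T R (h + 1) N).card ^ 4 := by
  classical
  set B := insert 0 (SS R (N / 2)) with hB
  have hne : B.Nonempty := insert_nonempty _ _
  have hpos : 1 ≤ B.card := card_pos.2 hne
  obtain ⟨m0, hm0, hmin⟩ := exists_min_image B (fun m => (T R h (N - m)).card) hne
  set τ := (T R h (N - m0)).card with hτ
  have h2 : B.card * τ ≤ (T R (h + 1) N).card := by
    refine le_trans ?_ (T_succ R h N (N / 2) (by omega))
    rw [← smul_eq_mul, ← sum_const]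
    exact sum_le_sum fun m hm => hmin m hm
  have hm0' : m0 ≤ N / 2 := by
    rw [hB] at hm0
    unfold SS at hm0
    rw [mem_insert, mem_filter, mem_Icc] at hm0
    omega
  have h3 := hC (N - m0) (by omega)
  have h4 : N ^ (3 * h - 4) ≤ 2 ^ (3 * h - 4) * (C * τ ^ 4) := by
    calc N ^ (3 * h - 4) ≤ (2 * (N - m0)) ^ (3 * h - 4) := Nat.pow_le_pow_left (by omega) _
      _ = 2 ^ (3 * h - 4) * (N - m0) ^ (3 * h - 4) := mul_pow _ _ _
      _ ≤ 2 ^ (3 * h - 4) * (C * τ ^ 4) := Nat.mul_le_mul_left _ h3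
  have h5 : N ^ 3 ≤ 432 * B.card ^ 4 := by
    rcases Nat.eq_zero_or_pos (N / 2) with h0 | h0
    · have h6 : N ≤ 1 := by omega
      calc N ^ 3 ≤ 1 ^ 3 := Nat.pow_le_pow_left h6 3
        _ ≤ 432 * 1 ^ 4 := by norm_num
        _ ≤ 432 * B.card ^ 4 := Nat.mul_le_mul_left _ (Nat.pow_le_pow_left hpos 4)
    · have h6 := count H h1 (M := N / 2) (by omega)
      have h7 : (SS R (N / 2)).card ≤ B.card := card_le_card (subset_insert _ _)
      calc N ^ 3 ≤ (3 * (N / 2)) ^ 3 := Nat.pow_le_pow_left (by omega) 3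
        _ = 27 * (N / 2) ^ 3 := by ring
        _ ≤ 27 * (16 * (SS R (N / 2)).card ^ 4) := Nat.mul_le_mul_left _ h6
        _ = 432 * (SS R (N / 2)).card ^ 4 := by ring
        _ ≤ 432 * B.card ^ 4 := Nat.mul_le_mul_left _ (Nat.pow_le_pow_left h7 4)
  have e : 3 * (h + 1) - 4 = 3 + (3 * h - 4) := by omega
  rw [e, pow_add]
  calc N ^ 3 * N ^ (3 * h - 4) ≤ (432 * B.card ^ 4) * (2 ^ (3 * h - 4) * (C * τ ^ 4)) :=
        Nat.mul_le_mul h5 h4
    _ = (432 * 2 ^ (3 * h - 4) * C) * (B.card * τ) ^ 4 := by ring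
    _ ≤ _ := Nat.mul_le_mul_left _ (Nat.pow_le_pow_left h2 4)

/-- the main statement -/
theorem T_all {L : ℕ} (H : Hyp R L) (h1 : 1 ≤ L → R 1) (h : ℕ) (hh : 2 ≤ h) :
    ∀ N, N ≤ L → N ^ (3 * h - 4) ≤ 4 ^ (h ^ 2) * (T R h N).card ^ 4 := by
  have h3 : ∀ N, N ≤ L → N ^ (3 * 3 - 4) ≤ 4 ^ (3 ^ 2) * (T R 3 N).card ^ 4 := by
    intro N hN
    refine (step H h1 2 36 le_rfl hN fun M hM => ?_).trans ?_
    · exact T_two H h1 (by omega)
    · exact Nat.mul_le_mul_right _ (by norm_num)
  rcases Nat.eq_or_lt_of_le hh with h2 | h2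
  · subst h2
    intro N hN
    refine (T_two H h1 hN).trans ?_
    exact Nat.mul_le_mul_right _ (by norm_num)
  · have hh3 : 3 ≤ h := h2
    clear h2 hh
    induction h, hh3 using Nat.le_induction with
    | base => exact h3
    | succ h hh ih =>
      intro N hN
      refine (step H h1 h _ (by omega) hN fun M hM => ih M (by omega)).trans ?_
      refine Nat.mul_le_mul_right _ ?_
      have e1 : 432 ≤ 2 ^ (h + 6) := by
        calc 432 ≤ 2 ^ 9 := by norm_num
          _ ≤ 2 ^ (h + 6) := Nat.pow_le_pow_right (by norm_num) (by omega)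
      have e2 : (h + 1) ^ 2 = h ^ 2 + (2 * h + 1) := by ring
      calc 432 * 2 ^ (3 * h - 4) * 4 ^ (h ^ 2) ≤ 2 ^ (h + 6) * 2 ^ (3 * h - 4) * 4 ^ (h ^ 2) :=
            Nat.mul_le_mul_right _ (Nat.mul_le_mul_right _ e1)
        _ = 2 ^ (2 * (2 * h + 1)) * 4 ^ (h ^ 2) := by
            rw [← pow_add]
            congr 2
            omega
        _ = 4 ^ ((h + 1) ^ 2) := by
            rw [pow_mul, e2, pow_add]
            norm_num
            ring

end Pool.Agent.Y374.RP.Cnt
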