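import Mathlib
import Pool.Agent.TH10.RP.TP2

/-!
# The functional that kills all double products: all moduli prime to the characteristic
-/

set_option autoImplicit false

namespace Pool.Agent.Y374.RP

open Finset Pool.Agent.TH10.RP

variable {k K : Type} [Field k] [Field K] [Algebra k K]

lemma exp1' (x : K) (hx : ∀ z : k, x ≠ algebraMap k K z) (a : ℕ) (ha : 1 ≤ a) (ha0 : (a : k) ≠ 0)
    (hroot : ∃ ζ : k, IsPrimitiveRoot ζ a) (hxa : x ^ a ≠ 1) (z : k) (hz : z ^ a ≠ 1) :
    PH x z * FF x a = FF z a • PH x z + 1 - (a : k)⁻¹ • ∑ y ∈ mu k a, ga z y • PH x y := by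
  have haK : (a : K) ≠ 0 := by
    have := (map_ne_zero (algebraMap k K)).2 ha0
    rwa [map_natCast] at this
  have h1 := sumPH a ha0 hroot x hxa
  have h2 := sum_ga a ha0 hroot z hz
  have h3 : (a : K) * (PH x z * FF x a) =
      ∑ y ∈ mu k a, (algebraMap k K (ga z y) * (PH x z - PH x y) + 1) := by
    rw [← sum_congr rfl (fun y hy => PH_mul x hx z y (fun h => by
      subst h
      exact hz ((mem_mu ha).1 hy))), ← mul_sum, h1]
    ring
  have h4 : ∑ y ∈ mu k a, (algebraMap k K (ga z y) * (PH x z - PH x y) + 1) =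
      algebraMap k K ((a : k) * FF z a) * PH x z - ∑ y ∈ mu k a, ga z y • PH x y + (mu k a).card := by
    rw [← h2, map_sum, sum_mul, ← sum_sub_distrib, sum_add_distrib, sum_const, nsmul_eq_mul, mul_one]
    congr 1
    refine sum_congr rfl fun y _ => ?_
    rw [Algebra.smul_def]
    ring
  have h5 : (mu k a).card = a := by
    obtain ⟨ζ, hζ⟩ := hroot
    exact hζ.card_nthRootsFinset
  rw [h4, h5] at h3
  have h6 : PH x z * FF x a = (a : K)⁻¹ * ((a : K) * (PH x z * FF x a)) := by
    field_simp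
  rw [h6, h3, Algebra.smul_def, Algebra.smul_def, map_inv₀, map_natCast, map_mul, map_natCast]
  field_simp
  ring

variable (hroot : ∀ m : ℕ, (m : k) ≠ 0 → ∃ ζ : k, IsPrimitiveRoot ζ m)
  (x : K) (hx : ∀ z : k, x ≠ algebraMap k K z) (hxm : ∀ m : ℕ, (m : k) ≠ 0 → x ^ m ≠ 1)
  (Λ : K →ₗ[k] k) (h1 : Λ 1 = 0)

include hroot hx hxm h1

lemma P1' (a : ℕ) (ha : 1 ≤ a) (ha0 : (a : k) ≠ 0) (z : k) (hz : z ^ a ≠ 1) :
    Λ (PH x z * FF x a) = FF z a * Λ (PH x z) - (a : k)⁻¹ * ∑ y ∈ mu k a, ga z y * Λ (PH x y) := by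
  rw [exp1' x hx a ha ha0 (hroot a ha0) (hxm a ha0) z hz, map_sub, map_add, h1, add_zero, map_smul,
    map_smul, map_sum, smul_eq_mul, smul_eq_mul]
  congr 2
  refine sum_congr rfl fun y _ => ?_
  rw [map_smul, smul_eq_mul]

theorem main_two_all [DecidableEq k]
    (hF : Λ (FF x 1) = 0)
    (hFF : ∀ a b : ℕ, (a : k) ≠ 0 → (b : k) ≠ 0 → Λ (FF x a * FF x b) = 0) :
    ∀ m : ℕ, (m : k) ≠ 0 →
      ∀ c : ℕ, c.Coprime m → ∑ z ∈ (mu k m).erase 1, FF z c * Λ (PH x z) = 0 := by
  intro m
  induction m using Nat.strong_induction_on with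
  | _ m ih =>
  intro hm0 c hc
  have hm : 1 ≤ m := by
    rcases Nat.eq_zero_or_pos m with h | h
    · rw [h] at hm0; simp at hm0
    · exact h
  have hone : Λ (PH x (1 : k)) = 0 := by
    rw [PH_one]
    exact hF
  have hcop : ∀ (a : ℕ) (z : k), a.Coprime m → z ∈ mu k m → z ≠ 1 → z ^ a ≠ 1 := by
    intro a z hc hz hz1 hza
    apply hz1
    have h2 : orderOf z ∣ m := orderOf_dvd_of_pow_eq_one ((mem_mu hm).1 hz)
    have h3 : orderOf z ∣ a := orderOf_dvd_of_pow_eq_one hza
    have h4 : orderOf z = 1 := Nat.eq_one_of_dvd_coprimes hc h3 h2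
    exact orderOf_eq_one_iff.1 h4
  have hcop' : ∀ (a : ℕ) (y : k), 1 ≤ a → a.Coprime m → y ∈ mu k a → y ≠ 1 → y ^ m ≠ 1 := by
    intro a y ha hc hy hy1 hym
    exact hcop a y hc ((mem_mu hm).2 hym) hy1 ((mem_mu ha).1 hy)
  -- the case of a reduced residue with nonzero image in `k`
  have key : ∀ a : ℕ, 1 ≤ a → a < m → a.Coprime m → (a : k) ≠ 0 →
      ∑ z ∈ (mu k m).erase 1, FF z a * Λ (PH x z) = 0 := by
    intro a ha ham hac ha0
    have hD := ih a ham ha0
    have h3 := sumPH m hm0 (hroot m hm0) x (hxm m hm0)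
    have h4 : ∑ z ∈ (mu k m).erase 1, Λ (PH x z * FF x a) = 0 := by
      have h5 : ∑ z ∈ mu k m, Λ (PH x z * FF x a) = 0 := by
        rw [← map_sum, ← sum_mul, h3]
        have : (m : K) * FF x m * FF x a = (m : k) • (FF x m * FF x a) := by
          rw [Algebra.smul_def, map_natCast]
          ring
        rw [this, map_smul, hFF m a hm0 ha0, smul_zero]
      rw [← add_sum_erase _ _ ((mem_mu hm).2 (one_pow _)), PH_one,
        hFF 1 a (by simp) ha0, zero_add] at h5
      exact h5
    have h5 : ∀ z ∈ (mu k m).erase 1, Λ (PH x z * FF x a) =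
        FF z a * Λ (PH x z) - (a : k)⁻¹ * ∑ y ∈ mu k a, ga z y * Λ (PH x y) := by
      intro z hz
      rw [mem_erase] at hz
      rw [P1' hroot x hx hxm Λ h1 a ha ha0 z (hcop a z hac hz.2 hz.1)]
    rw [sum_congr rfl h5, sum_sub_distrib, ← mul_sum, sum_comm] at h4
    have h6 : ∑ y ∈ mu k a, ∑ z ∈ (mu k m).erase 1, ga z y * Λ (PH x y) = 0 := by
      rw [← add_sum_erase _ _ ((mem_mu ha).2 (one_pow _))]
      have h7 : ∑ z ∈ (mu k m).erase 1, ga z 1 * Λ (PH x (1 : k)) = 0 := by
        rw [hone]; simp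
      rw [h7, zero_add]
      have h8 : ∀ y ∈ (mu k a).erase 1, ∑ z ∈ (mu k m).erase 1, ga z y * Λ (PH x y) =
          FF y 1 * Λ (PH x y) - m * (FF y m * Λ (PH x y)) := by
        intro y hy
        rw [mem_erase] at hy
        rw [← sum_mul]
        have h9 : ∑ z ∈ (mu k m).erase 1, ga z y = FF y 1 - m * FF y m := by
          have h10 := sum_ga m hm0 (hroot m hm0) y
            (hcop' a y ha hac hy.2 hy.1)
          rw [← add_sum_erase _ _ ((mem_mu hm).2 (one_pow _))] at h10
          have h11 : ∑ z ∈ (mu k m).erase 1, ga z y = - ∑ z ∈ (mu k m).erase 1, ga y z := by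
            rw [← sum_neg_distrib]
            exact sum_congr rfl fun z _ => ga_anti z y
          have h12 : ga y 1 = FF y 1 := by
            unfold ga FF
            rw [pow_one]
          rw [h12] at h10
          rw [h11]
          linear_combination -h10
        rw [h9]
        ring
      rw [sum_congr rfl h8, sum_sub_distrib, ← mul_sum, hD 1 (Nat.coprime_one_left _),
        hD m hac.symm]
      simp
    rw [h6, mul_zero, sub_zero] at h4
    exact h4
  rcases Nat.lt_or_ge m 2 with hm2 | hm2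
  · have : m = 1 := by omega
    subst this
    refine sum_eq_zero fun z hz => ?_
    rw [mem_erase, mem_mu le_rfl, pow_one] at hz
    exact absurd hz.2 hz.1
  · set a := c % m with hadef
    have ham : a < m := Nat.mod_lt _ (by omega)
    have hac : a.Coprime m := by
      rw [hadef, Nat.Coprime, ← Nat.gcd_rec, Nat.gcd_comm]
      exact hc
    have ha : 1 ≤ a := by
      rcases Nat.eq_zero_or_pos a with h | h
      · rw [h, Nat.coprime_zero_left] at hac
        omega
      · exact h
    have hFz : ∀ z ∈ mu k m, FF z c = FF z a := by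
      intro z hz
      have h2 : z ^ c = z ^ a := by
        rw [hadef, ← pow_mod_orderOf z c]
        have h3 : orderOf z ∣ m := orderOf_dvd_of_pow_eq_one ((mem_mu hm).1 hz)
        rw [← pow_mod_orderOf z (c % m), Nat.mod_mod_of_dvd _ h3]
      unfold FF
      rw [h2]
    have hred : ∑ z ∈ (mu k m).erase 1, FF z c * Λ (PH x z) =
        ∑ z ∈ (mu k m).erase 1, FF z a * Λ (PH x z) :=
      sum_congr rfl fun z hz => by rw [hFz z (mem_of_mem_erase hz)]
    rw [hred]
    by_cases ha0 : (a : k) = 0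
    · -- use `m - a`
      have hb0 : ((m - a : ℕ) : k) ≠ 0 := by
        rw [Nat.cast_sub ham.le, ha0, sub_zero]
        exact hm0
      have hbc : (m - a).Coprime m := (Nat.coprime_self_sub_left ham.le).2 hac
      have h2 := key (m - a) (by omega) (by omega) hbc hb0
      have h3 : ∀ z ∈ (mu k m).erase 1, FF z a * Λ (PH x z) = - (FF z (m - a) * Λ (PH x z)) := by
        intro z hz
        rw [mem_erase] at hz
        have hz0 : z ≠ 0 := by
          rintro rfl
          have := (mem_mu hm).1 hz.2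
          rw [zero_pow (by omega)] at this
          exact zero_ne_one this
        have h4 : z ^ (m - a) = (z ^ a)⁻¹ := by
          rw [eq_comm, inv_eq_iff_eq_inv, ← one_div, eq_div_iff (pow_ne_zero _ hz0), ← pow_add,
            show a + (m - a) = m by omega]
          exact (mem_mu hm).1 hz.2
        have h5 : z ^ a ≠ 1 := hcop a z hac hz.2 hz.1
        have h6 : z ^ a ≠ 0 := pow_ne_zero _ hz0
        have h7 : FF z a = - FF z (m - a) := by
          unfold FF
          rw [h4]
          have h8 : z ^ a - 1 ≠ 0 := sub_ne_zero.2 h5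
          have h9 : (z ^ a)⁻¹ - 1 ≠ 0 := by
            rw [sub_ne_zero]
            intro h
            exact h5 (inv_eq_one.1 h)
          have h10 : 1 - z ^ a ≠ 0 := by
            rw [sub_ne_zero]; exact h5.symm
          field_simp
          ring
        rw [h7]
        ring
      rw [sum_congr rfl h3, sum_neg_distrib, h2, neg_zero]
    · exact key a ha ham hac ha0

end Pool.Agent.Y374.RP
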