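import Mathlib

/-!
# Non-vanishing of character sums of rational functions over roots of unity of 3-power order

A version of Sinnott's proof of Washington's theorem.
-/

set_option autoImplicit false

namespace Pool.Agent.Y374.RP

open Finset

lemma sum_shift {R : Type*} [AddCommGroup R] (M : ℕ) (h : ℕ → R) (hp : ∀ s, h (s + M) = h s)
    (t : ℕ) : ∑ s ∈ range M, h (s + t) = ∑ s ∈ range M, h s := by
  induction t with
  | zero => rfl
  | succ t ih =>
    rw [← ih]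
    have h1 := sum_range_succ (fun s => h (s + t)) M
    have h2 := sum_range_succ' (fun s => h (s + t)) M
    rw [h1] at h2
    have h3 : h (M + t) = h (0 + t) := by rw [add_comm M t, hp, zero_add]
    rw [h3] at h2
    have h4 := add_right_cancel h2
    rw [h4]
    refine sum_congr rfl fun s _ => ?_
    congr 1
    ring

lemma sum_range_mul {R : Type*} [AddCommMonoid R] (L U : ℕ) (h : ℕ → R) :
    ∑ s ∈ range (L * U), h s = ∑ r ∈ range L, ∑ u ∈ range U, h (r + L * u) := by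
  induction U with
  | zero => simp
  | succ U ih =>
    rw [Nat.mul_succ, sum_range_add, ih]
    simp_rw [sum_range_succ]
    rw [sum_add_distrib]
    congr 1
    refine sum_congr rfl fun r _ => ?_
    rw [add_comm]

/-- `3 ^ n ∣ 2 ^ M - 1` -/
lemma two_pow_modEq (n : ℕ) (hn : 1 ≤ n) : 2 ^ (2 * 3 ^ (n - 1)) ≡ 1 [MOD 3 ^ n] := by
  have h := Nat.ModEq.pow_totient (x := 2) (n := 3 ^ n) (Nat.Coprime.pow_right n (by norm_num))
  rwa [Nat.totient_prime_pow Nat.prime_three (by omega), show 3 ^ (n - 1) * (3 - 1) = 2 * 3 ^ (n - 1) by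
    ring] at h

/-- if `2 ^ d ≡ 1` modulo `3 ^ n` then `2 * 3 ^ (n - 1) ∣ d` -/
lemma two_order (n : ℕ) (hn : 1 ≤ n) (d : ℕ) (h : 2 ^ d ≡ 1 [MOD 3 ^ n]) : 2 * 3 ^ (n - 1) ∣ d := by
  have h3 : 2 ^ d ≡ 1 [MOD 3] := h.of_dvd (dvd_pow_self 3 (by omega))
  have hev : Even d := by
    by_contra hodd
    rw [Nat.not_even_iff_odd] at hodd
    obtain ⟨j, rfl⟩ := hodd
    have h4 : 2 ^ (2 * j + 1) % 3 = 2 := by
      rw [pow_succ, pow_mul, Nat.mul_mod, Nat.pow_mod]
      norm_num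
    have h5 : 2 ^ (2 * j + 1) % 3 = 1 := h3
    omega
  obtain ⟨j, rfl⟩ := even_iff_two_dvd.1 hev
  refine Nat.mul_dvd_mul_left 2 ?_
  rcases Nat.eq_zero_or_pos j with rfl | hj
  · exact dvd_zero _
  have : Fact (Nat.Prime 3) := ⟨Nat.prime_three⟩
  have h6 := padicValNat.pow_sub_pow (p := 3) (x := 4) (y := 1) (by decide) (by norm_num)
    (by norm_num) (by norm_num) (n := j) (by omega)
  rw [one_pow] at h6
  have h7 : padicValNat 3 (4 - 1) = 1 := by
    norm_num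
  rw [h7] at h6
  have h8 : 3 ^ n ∣ 4 ^ j - 1 := by
    have h9 : 1 ≡ 4 ^ j [MOD 3 ^ n] := by
      rw [show (4 : ℕ) = 2 ^ 2 by norm_num, ← pow_mul]
      exact h.symm
    exact (Nat.modEq_iff_dvd' (Nat.one_le_pow _ _ (by norm_num))).1 h9
  have h10 : 4 ^ j - 1 ≠ 0 := by
    have : 4 ^ 1 ≤ 4 ^ j := Nat.pow_le_pow_right (by norm_num) hj
    omega
  have h11 : n ≤ padicValNat 3 (4 ^ j - 1) := (padicValNat_dvd_iff_le h10).1 h8
  rw [h6] at h11
  exact (padicValNat_dvd_iff_le (by omega)).2 (by omega)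

/-- `2` is a primitive root modulo `3 ^ n` -/
lemma two_prim (n : ℕ) (hn : 1 ≤ n) (c : ℕ) (hc : c.Coprime 3) : ∃ t, 2 ^ t ≡ c [MOD 3 ^ n] := by
  have hne : NeZero (3 ^ n) := ⟨by positivity⟩
  set g : (ZMod (3 ^ n))ˣ := ZMod.unitOfCoprime 2 (Nat.Coprime.pow_right n (by norm_num)) with hg
  have hord : orderOf g = Nat.card (ZMod (3 ^ n))ˣ := by
    refine Nat.dvd_antisymm (orderOf_dvd_natCard g) ?_
    rw [Nat.card_eq_fintype_card, ZMod.card_units_eq_totient, Nat.totient_prime_pow Nat.prime_three (by omega),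
      show 3 ^ (n - 1) * (3 - 1) = 2 * 3 ^ (n - 1) by ring]
    refine two_order n hn _ ?_
    have h1 := pow_orderOf_eq_one g
    have h2 := congrArg (Units.val) h1
    rw [Units.val_pow_eq_pow_val, Units.val_one, hg, ZMod.coe_unitOfCoprime] at h2
    have h3 : ((2 ^ orderOf g : ℕ) : ZMod (3 ^ n)) = ((1 : ℕ) : ZMod (3 ^ n)) := by
      push_cast
      rw [hg]
      exact_mod_cast h2
    exact (ZMod.natCast_eq_natCast_iff _ _ _).1 h3
  have htop : Subgroup.zpowers g = ⊤ :=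
    Subgroup.eq_top_of_card_eq _ (by rw [Nat.card_zpowers, hord])
  have hmem : ZMod.unitOfCoprime c (Nat.Coprime.pow_right n hc) ∈ Submonoid.powers g := by
    rw [mem_powers_iff_mem_zpowers, htop]
    trivial
  obtain ⟨t, ht⟩ := hmem
  refine ⟨t, ?_⟩
  have h2 := congrArg (Units.val) ht
  simp only [Units.val_pow_eq_pow_val, hg, ZMod.coe_unitOfCoprime] at h2
  refine (ZMod.natCast_eq_natCast_iff _ _ _).1 ?_
  push_cast
  exact_mod_cast h2


/-- if `3 ^ (n - 1) ∣ q ^ d - 1` then `3 ^ (n - 1 - e) ∣ d` -/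
lemma q_order (q e : ℕ) (hq : 1 < q) (hq3 : 3 ∣ q - 1) (he : e = padicValNat 3 (q - 1)) (m d : ℕ)
    (hd : 3 ^ m ∣ q ^ d - 1) : 3 ^ (m - e) ∣ d := by
  rcases Nat.eq_zero_or_pos d with rfl | hd0
  · exact dvd_zero _
  have : Fact (Nat.Prime 3) := ⟨Nat.prime_three⟩
  have h3 : ¬ 3 ∣ q := by
    intro h
    have := (Nat.dvd_sub h hq3)
    rw [show q - (q - 1) = 1 by omega] at this
    norm_num at this
  have h6 := padicValNat.pow_sub_pow (p := 3) (x := q) (y := 1) (by decide) hq hq3 h3 (n := d)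
    (by omega)
  rw [one_pow, ← he] at h6
  have h10 : q ^ d - 1 ≠ 0 := by
    have : 1 < q ^ d := Nat.one_lt_pow (by omega) hq
    omega
  have h11 : m ≤ padicValNat 3 (q ^ d - 1) := (padicValNat_dvd_iff_le h10).1 hd
  rw [h6] at h11
  exact (padicValNat_dvd_iff_le (by omega)).2 (by omega)

/-- the exact power of `3` in `2 ^ (3 ^ j) + 1` -/
lemma two_pow_add_one (j : ℕ) : ∃ κ, 2 ^ (3 ^ j) + 1 = 3 ^ (j + 1) * κ ∧ ¬ 3 ∣ κ := by
  have : Fact (Nat.Prime 3) := ⟨Nat.prime_three⟩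
  have h6 := padicValNat.pow_add_pow (p := 3) (x := 2) (y := 1) (by decide) (by norm_num)
    (by norm_num) (n := 3 ^ j) (Odd.pow (by decide))
  rw [one_pow, padicValNat.prime_pow] at h6
  have h7 : padicValNat 3 (2 + 1) = 1 := by norm_num
  rw [h7] at h6
  have h10 : 2 ^ (3 ^ j) + 1 ≠ 0 := Nat.succ_ne_zero _
  have h8 : 3 ^ (j + 1) ∣ 2 ^ (3 ^ j) + 1 := (padicValNat_dvd_iff_le h10).2 (by omega)
  obtain ⟨κ, hκ⟩ := h8
  refine ⟨κ, hκ, ?_⟩
  rintro ⟨κ', rfl⟩
  have h9 : 3 ^ (j + 2) ∣ 2 ^ (3 ^ j) + 1 := ⟨κ', by rw [hκ]; ring⟩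
  have := (padicValNat_dvd_iff_le h10).1 h9
  omega

end Pool.Agent.Y374.RP
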