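import Mathlib
import Pool.Agent.Y374.RP.Sin

/-!
# Non-vanishing of character sums of rational functions over roots of unity of 3-power order (2)
-/

set_option autoImplicit false

namespace Pool.Agent.Y374.RP

open Finset Polynomial

variable {k : Type*} [Field k]

lemma pow_modEq' {z : k} {a b m : ℕ} (hz : z ^ m = 1) (h : a ≡ b [MOD m]) : z ^ a = z ^ b := by
  rw [← pow_mod_orderOf z a, ← pow_mod_orderOf z b]
  congr 1
  exact h.of_dvd (orderOf_dvd_of_pow_eq_one hz)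

/-- the sequence `f (ζ ^ (2 ^ s))` is periodic -/
lemma seq_periodic (f : k → k) (n : ℕ) (hn : 1 ≤ n) (ζ : k) (hζ : ζ ^ (3 ^ n) = 1) (s : ℕ) :
    f (ζ ^ (2 ^ (s + 2 * 3 ^ (n - 1)))) = f (ζ ^ (2 ^ s)) := by
  congr 1
  refine pow_modEq' hζ ?_
  rw [pow_add]
  simpa using (Nat.ModEq.refl (2 ^ s)).mul (two_pow_modEq n hn)

/-- Frobenius -/
lemma frob_step (p : ℕ) [Fact p.Prime] [CharP k p] (hp3 : p ≠ 3) (f : k → k)
    (hfq : ∀ z, z ≠ 0 → z ≠ 1 → f (z ^ p) = f z ^ p) (n : ℕ) (hn : 1 ≤ n) (ζ : k)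
    (hζ : IsPrimitiveRoot ζ (3 ^ n)) (η : k) (hη : η ^ (2 * 3 ^ (n - 1)) = 1)
    (h : ∑ s ∈ range (2 * 3 ^ (n - 1)), η ^ s * f (ζ ^ (2 ^ s)) = 0) :
    ∑ s ∈ range (2 * 3 ^ (n - 1)), (η ^ p) ^ s * f (ζ ^ (2 ^ s)) = 0 := by
  have hpp : p.Prime := Fact.out
  have hcop : p.Coprime 3 := by
    rw [Nat.coprime_primes hpp Nat.prime_three]
    exact hp3
  obtain ⟨t, ht⟩ := two_prim n hn p hcop
  have h3n : 1 < 3 ^ n := Nat.one_lt_pow (by omega) (by norm_num)
  have hz : ∀ s, ζ ^ (2 ^ s) ≠ 0 ∧ ζ ^ (2 ^ s) ≠ 1 := by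
    intro s
    refine ⟨pow_ne_zero _ (hζ.ne_zero (by omega)), ?_⟩
    intro h1
    have h2 := hζ.dvd_of_pow_eq_one _ h1
    have h3 : Nat.Coprime (3 ^ n) (2 ^ s) := Nat.Coprime.pow _ _ (by norm_num)
    have h4 := Nat.Coprime.eq_one_of_dvd h3 h2
    omega
  have h1 : (∑ s ∈ range (2 * 3 ^ (n - 1)), η ^ s * f (ζ ^ (2 ^ s))) ^ p = 0 := by
    rw [h, zero_pow hpp.ne_zero]
  rw [sum_pow_char] at h1
  have h2 : ∀ s, (η ^ s * f (ζ ^ (2 ^ s))) ^ p = (η ^ p) ^ s * f (ζ ^ (2 ^ (s + t))) := by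
    intro s
    rw [mul_pow, ← hfq _ (hz s).1 (hz s).2]
    congr 1
    · rw [← pow_mul, ← pow_mul, mul_comm]
    · congr 1
      rw [← pow_mul]
      refine pow_modEq' hζ.pow_eq_one ?_
      rw [pow_add]
      exact (Nat.ModEq.refl _).mul ht.symm
  rw [sum_congr rfl (fun s _ => h2 s)] at h1
  have h3 := sum_shift (2 * 3 ^ (n - 1)) (fun s => (η ^ p) ^ s * f (ζ ^ (2 ^ s))) (by
    intro s
    rw [seq_periodic f n hn ζ hζ.pow_eq_one, pow_add, ← pow_mul η p (2 * 3 ^ (n - 1)),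
      mul_comm p (2 * 3 ^ (n - 1)), pow_mul η, hη, one_pow, mul_one]) t
  rw [← h3]
  have h4 : ∀ s, (η ^ p) ^ (s + t) * f (ζ ^ (2 ^ (s + t))) =
      (η ^ p) ^ t * ((η ^ p) ^ s * f (ζ ^ (2 ^ (s + t)))) := by
    intro s
    rw [pow_add]; ring
  rw [sum_congr rfl (fun s _ => h4 s), ← mul_sum, h1, mul_zero]

lemma frob_iter (p : ℕ) [Fact p.Prime] [CharP k p] (hp3 : p ≠ 3) (f : k → k)
    (hfq : ∀ z, z ≠ 0 → z ≠ 1 → f (z ^ p) = f z ^ p) (n : ℕ) (hn : 1 ≤ n) (ζ : k)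
    (hζ : IsPrimitiveRoot ζ (3 ^ n)) (η : k) (hη : η ^ (2 * 3 ^ (n - 1)) = 1)
    (h : ∑ s ∈ range (2 * 3 ^ (n - 1)), η ^ s * f (ζ ^ (2 ^ s)) = 0) (j : ℕ) :
    ∑ s ∈ range (2 * 3 ^ (n - 1)), (η ^ (p ^ j)) ^ s * f (ζ ^ (2 ^ s)) = 0 := by
  induction j with
  | zero => simpa using h
  | succ j ih =>
    have h1 := frob_step p hp3 f hfq n hn ζ hζ (η ^ (p ^ j)) (by
      rw [← pow_mul, mul_comm, pow_mul, hη, one_pow]) ih
    rw [pow_succ, pow_mul]
    exact h1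

/-- the polynomial trick: vanishing at all roots of `X ^ L - τ` -/
lemma fibre_sum (L U : ℕ) (hL : 1 ≤ L) (a : ℕ → k) (ha : ∀ s, a (s + L * U) = a s) (τ : k)
    (hτ : τ ^ U = 1) (hU : 1 ≤ U) (R : Finset k) (hR : R.card = L) (hRτ : ∀ η ∈ R, η ^ L = τ)
    (hRa : ∀ η ∈ R, ∑ s ∈ range (L * U), η ^ s * a s = 0) (r : ℕ) :
    ∑ u ∈ range U, τ ^ u * a (r + L * u) = 0 := by
  classical
  have hτ0 : τ ≠ 0 := by
    rintro rfl
    rw [zero_pow (by omega)] at hτ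
    exact zero_ne_one hτ
  set Pb : k[X] := ∑ r ∈ range L, C (∑ u ∈ range U, τ ^ u * a (r + L * u)) * X ^ r with hPb
  have hPb0 : Pb = 0 := by
    by_contra hne
    have hdeg : Pb.natDegree < L := by
      have : Pb.natDegree ≤ L - 1 := by
        refine natDegree_sum_le_of_forall_le _ _ fun r hr => ?_
        rw [mem_range] at hr
        exact (natDegree_C_mul_X_pow_le _ _).trans (by omega)
      omega
    apply hne
    refine eq_zero_of_natDegree_lt_card_of_eval_eq_zero' Pb R ?_ (by rw [hR]; exact hdeg)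
    intro η hη
    have h1 := hRa η hη
    rw [sum_range_mul] at h1
    rw [← h1, hPb, eval_finsetSum]
    refine sum_congr rfl fun r _ => ?_
    rw [eval_mul, eval_C, eval_pow, eval_X, sum_mul]
    refine sum_congr rfl fun u _ => ?_
    rw [pow_add, pow_mul, hRτ η hη]
    ring
  have hbase : ∀ r, r < L → ∑ u ∈ range U, τ ^ u * a (r + L * u) = 0 := by
    intro r hr
    have h1 := congrArg (fun P => coeff P r) hPb0
    simp only [hPb, finsetSum_coeff, coeff_C_mul, coeff_X_pow, coeff_zero] at h1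
    rw [sum_eq_single r] at h1
    · simpa using h1
    · intro b _ hb
      rw [if_neg (Ne.symm hb), mul_zero]
    · intro h
      exact absurd (mem_range.2 hr) h
  have hstep : ∀ r, τ * ∑ u ∈ range U, τ ^ u * a (r + L + L * u) =
      ∑ u ∈ range U, τ ^ u * a (r + L * u) := by
    intro r
    have h1 := sum_shift U (fun u => τ ^ u * a (r + L * u)) (by
      intro u
      rw [pow_add, hτ, mul_one, mul_add, ← add_assoc, ha]) 1
    rw [← h1, mul_sum]
    refine sum_congr rfl fun u _ => ?_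
    rw [pow_succ, mul_add, mul_one, show r + L + L * u = r + (L * u + L) by ring]
    ring
  induction r using Nat.strong_induction_on with
  | _ r ih =>
    rcases Nat.lt_or_ge r L with h | h
    · exact hbase r h
    · have h1 := hstep (r - L)
      rw [ih (r - L) (by omega), Nat.sub_add_cancel h] at h1
      exact (mul_eq_zero.1 h1).resolve_left hτ0

end Pool.Agent.Y374.RP
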