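import Mathlib
import Pool.Agent.Y374.RP.Sin2

/-!
# Non-vanishing of character sums of rational functions over roots of unity of 3-power order (3)
-/

set_option autoImplicit false

namespace Pool.Agent.Y374.RP

open Finset Polynomial

variable {k : Type*} [Field k]

lemma twist (z : k) (hz : z ≠ 0) (L B : ℕ) (hB : 2 ^ L + 1 = B) (hBB : z ^ (B * B) = 1) (u : ℕ) :
    (Even u → z ^ (2 ^ (L * u)) = z * ((z ^ B)⁻¹) ^ u) ∧
      (¬ Even u → z ^ (2 ^ (L * u)) = (z * ((z ^ B)⁻¹) ^ u)⁻¹) := by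
  have hzB : z ^ B ≠ 0 := pow_ne_zero _ hz
  set γ : k := (z ^ B)⁻¹ with hγ
  have hγ0 : γ ≠ 0 := inv_ne_zero hzB
  have hγB : γ ^ B = 1 := by
    rw [hγ, inv_pow, ← pow_mul, hBB, inv_one]
  have hγz : γ * z ^ B = 1 := by
    rw [hγ]; exact inv_mul_cancel₀ hzB
  -- the action of `2 ^ L`
  have hact : ∀ v : ℕ, (z * γ ^ v) ^ (2 ^ L) = (z * γ ^ (v + 1))⁻¹ := by
    intro v
    have hy0 : z * γ ^ v ≠ 0 := mul_ne_zero hz (pow_ne_zero _ hγ0)
    have h1 : (z * γ ^ v) ^ (2 ^ L) * (z * γ ^ v) = z ^ B := by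
      rw [← pow_succ, hB, mul_pow, ← pow_mul, mul_comm v B, pow_mul, hγB, one_pow, mul_one]
    rw [eq_comm, inv_eq_iff_eq_inv, ← one_div, eq_div_iff (pow_ne_zero _ hy0)]
    calc z * γ ^ (v + 1) * (z * γ ^ v) ^ (2 ^ L) = γ * ((z * γ ^ v) ^ (2 ^ L) * (z * γ ^ v)) := by
          rw [pow_succ]; ring
      _ = 1 := by rw [h1, hγz]
  induction u with
  | zero => simp
  | succ u ih =>
    have h2 : z ^ (2 ^ (L * (u + 1))) = (z ^ (2 ^ (L * u))) ^ (2 ^ L) := by
      rw [← pow_mul, ← pow_add]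
      congr 2
    constructor
    · intro he
      have hu : ¬ Even u := by
        intro h
        exact (Nat.even_add_one.1 he) h
      rw [h2, ih.2 hu, inv_pow, hact u, inv_inv]
    · intro he
      have hu : Even u := by
        by_contra h
        exact he (Nat.even_add_one.2 h)
      rw [h2, ih.1 hu, hact u]

lemma twist_f (f : k → k) (hfinv : ∀ z, z ≠ 0 → z ≠ 1 → f z⁻¹ = - f z) (z : k) (hz : z ≠ 0)
    (L B : ℕ) (hB : 2 ^ L + 1 = B) (hBB : z ^ (B * B) = 1) (u : ℕ)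
    (h1 : z * ((z ^ B)⁻¹) ^ u ≠ 1) :
    f (z ^ (2 ^ (L * u))) = (-1) ^ u * f (z * ((z ^ B)⁻¹) ^ u) := by
  have h0 : z * ((z ^ B)⁻¹) ^ u ≠ 0 := mul_ne_zero hz (pow_ne_zero _ (inv_ne_zero (pow_ne_zero _ hz)))
  by_cases hu : Even u
  · rw [(twist z hz L B hB hBB u).1 hu, hu.neg_one_pow, one_mul]
  · rw [(twist z hz L B hB hBB u).2 hu, hfinv _ h0 h1,
      (Nat.not_even_iff_odd.1 hu).neg_one_pow, neg_one_mul]

lemma half_sum (E : ℕ) (g : ℕ → k) (hg : ∀ u, g (u + E) = g u) :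
    ∑ u ∈ range (2 * E), g u = 2 * ∑ u ∈ range E, g u := by
  rw [two_mul, sum_range_add, two_mul]
  congr 1
  refine sum_congr rfl fun u _ => ?_
  rw [add_comm, hg]

/-- the rational function has a genuine pole, so few zeros -/
lemma pole (f : k → k) (D : ℕ) (hD : 1 ≤ D) (A : k[X]) (hA1 : A.eval 1 ≠ 0)
    (hAdeg : A.natDegree ≤ D)
    (hfA : ∀ z, z ≠ 0 → z ≠ 1 → (1 - z) ^ D * f z = A.eval z) (E : ℕ) (hE : 1 ≤ E) (γ c : k)
    (hγ : IsPrimitiveRoot γ E)
    (Z : Finset k) (hZ : E * D < Z.card) (hZ0 : ∀ w ∈ Z, w ≠ 0)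
    (hZ1 : ∀ w ∈ Z, ∀ u, w * γ ^ u ≠ 1)
    (hsum : ∀ w ∈ Z, ∑ u ∈ range E, c ^ u * f (w * γ ^ u) = 0) : False := by
  classical
  have hγ0 : γ ≠ 0 := hγ.ne_zero (by omega)
  set H : k[X] := ∑ u ∈ range E, C (c ^ u) * (A.comp (C (γ ^ u) * X) *
    ∏ v ∈ (range E).erase u, (1 - C (γ ^ v) * X) ^ D) with hH
  have hlin : ∀ v : ℕ, (1 - C (γ ^ v) * X : k[X]).natDegree ≤ 1 := by
    intro v
    refine (natDegree_sub_le _ _).trans (max_le ?_ ?_)
    · rw [natDegree_one]; omega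
    · exact (natDegree_C_mul_le _ _).trans natDegree_X_le
  have hdeg : H.natDegree ≤ E * D := by
    refine natDegree_sum_le_of_forall_le _ _ fun u hu => ?_
    refine (natDegree_C_mul_le _ _).trans (natDegree_mul_le.trans ?_)
    have h1 : (A.comp (C (γ ^ u) * X)).natDegree ≤ D := by
      refine natDegree_comp_le.trans ?_
      have : (C (γ ^ u) * X : k[X]).natDegree ≤ 1 := (natDegree_C_mul_le _ _).trans natDegree_X_le
      nlinarith
    have h2 : (∏ v ∈ (range E).erase u, (1 - C (γ ^ v) * X : k[X]) ^ D).natDegree ≤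
        ((range E).erase u).card * D := by
      refine (natDegree_prod_le _ _).trans ?_
      rw [← smul_eq_mul, ← sum_const]
      refine sum_le_sum fun v _ => ?_
      refine natDegree_pow_le.trans ?_
      have := hlin v
      nlinarith
    rw [card_erase_of_mem hu, card_range] at h2
    obtain ⟨E', rfl⟩ : ∃ E', E = E' + 1 := ⟨E - 1, by omega⟩
    rw [Nat.add_sub_cancel] at h2
    nlinarith
  have hH0 : H = 0 := by
    refine eq_zero_of_natDegree_lt_card_of_eval_eq_zero' H Z ?_ (by omega)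
    intro w hw
    have hP : H.eval w = (∏ v ∈ range E, (1 - w * γ ^ v) ^ D) *
        ∑ u ∈ range E, c ^ u * f (w * γ ^ u) := by
      rw [hH, eval_finsetSum, mul_sum]
      refine sum_congr rfl fun u hu => ?_
      rw [eval_mul, eval_C, eval_mul, eval_comp, eval_mul, eval_C, eval_X, eval_prod,
        ← mul_prod_erase _ _ hu]
      have h3 := hfA (w * γ ^ u) (mul_ne_zero (hZ0 w hw) (pow_ne_zero _ hγ0)) (hZ1 w hw u)
      rw [mul_comm (γ ^ u) w, ← h3]
      have h4 : ∏ v ∈ (range E).erase u, eval w ((1 - C (γ ^ v) * X : k[X]) ^ D) =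
          ∏ v ∈ (range E).erase u, (1 - w * γ ^ v) ^ D := by
        refine prod_congr rfl fun v _ => ?_
        rw [eval_pow, eval_sub, eval_one, eval_mul, eval_C, eval_X, mul_comm]
      rw [h4]
      ring
    rw [hP, hsum w hw, mul_zero]
  have hH1 : H.eval 1 = A.eval 1 * ∏ v ∈ (range E).erase 0, (1 - γ ^ v) ^ D := by
    rw [hH, eval_finsetSum, sum_eq_single 0]
    · rw [eval_mul, eval_C, eval_mul, eval_comp, eval_mul, eval_C, eval_X, eval_prod]
      simp only [pow_zero, one_mul]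
      congr 1
      refine prod_congr rfl fun v _ => ?_
      rw [eval_pow, eval_sub, eval_one, eval_mul, eval_C, eval_X, mul_one]
    · intro u _ hu0
      rw [eval_mul, eval_mul, eval_prod,
        prod_eq_zero (mem_erase.2 ⟨hu0.symm, mem_range.2 (by omega : 0 < E)⟩)]
      · ring
      · rw [eval_pow, eval_sub, eval_one, eval_mul, eval_C, eval_X, pow_zero, mul_one, sub_self,
          zero_pow (by omega)]
    · intro h
      exact absurd (mem_range.2 (by omega)) h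
  rw [hH0, eval_zero] at hH1
  rcases mul_eq_zero.1 hH1.symm with h | h
  · exact hA1 h
  · rw [prod_eq_zero_iff] at h
    obtain ⟨v, hv, hv0⟩ := h
    rw [mem_erase, mem_range] at hv
    have h5 : 1 - γ ^ v = 0 := pow_eq_zero_iff (by omega) |>.1 hv0
    have h6 : γ ^ v = 1 := (sub_eq_zero.1 h5).symm
    have h7 := Nat.le_of_dvd (by omega) (hγ.dvd_of_pow_eq_one v h6)
    omega

end Pool.Agent.Y374.RP
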