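import Mathlib
import Pool.Agent.Y374.RP.Sin3

/-!
# Non-vanishing of character sums of rational functions over roots of unity of 3-power order (4)
-/

set_option autoImplicit false

namespace Pool.Agent.Y374.RP

open Finset Polynomial

variable {k : Type*} [Field k]

lemma prim_as_pow (n : ℕ) (hn : 1 ≤ n) (ζ w : k) (hζ : IsPrimitiveRoot ζ (3 ^ n))
    (hw : IsPrimitiveRoot w (3 ^ n)) : ∃ r, w = ζ ^ (2 ^ r) := by
  have : NeZero (3 ^ n) := ⟨by positivity⟩
  obtain ⟨i, _, hic, hi⟩ := hζ.isPrimitiveRoot_iff.1 hw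
  have hc : i.Coprime 3 := Nat.Coprime.coprime_dvd_right (dvd_pow_self 3 (by omega)) hic
  obtain ⟨t, ht⟩ := two_prim n hn i hc
  refine ⟨t, ?_⟩
  rw [← hi]
  exact (pow_modEq' hζ.pow_eq_one ht).symm

/-- Let `f` be a rational function over the prime field with a pole at `1` and no other pole, odd for
`z ↦ z⁻¹`. Its sum over the primitive `3 ^ n`-th roots of unity against a faithful character is not
zero if `n` is large. -/
theorem nonvanish (p : ℕ) [Fact p.Prime] [CharP k p] (hp2 : p ≠ 2) (hp3 : p ≠ 3) (f : k → k)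
    (D : ℕ) (hD : 1 ≤ D) (A : k[X]) (hA1 : A.eval 1 ≠ 0) (hAdeg : A.natDegree ≤ D)
    (hfA : ∀ z, z ≠ 0 → z ≠ 1 → (1 - z) ^ D * f z = A.eval z)
    (hfinv : ∀ z, z ≠ 0 → z ≠ 1 → f z⁻¹ = - f z)
    (hfq : ∀ z, z ≠ 0 → z ≠ 1 → f (z ^ p) = f z ^ p)
    (e : ℕ) (he : e = padicValNat 3 (p ^ 2 - 1)) (n : ℕ) (hn : 2 * e + 1 ≤ n)
    (hnD : 3 ^ e * D < 3 ^ (n - e)) (ζ ξ : k) (hζ : IsPrimitiveRoot ζ (3 ^ n))
    (hξ : IsPrimitiveRoot ξ (2 * 3 ^ (n - 1))) :
    ∑ s ∈ range (2 * 3 ^ (n - 1)), ξ ^ s * f (ζ ^ (2 ^ s)) ≠ 0 := by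
  classical
  intro hzero
  have hpp : p.Prime := Fact.out
  have hp5 : 2 < p := lt_of_le_of_ne hpp.two_le (Ne.symm hp2)
  have h2k : (2 : k) ≠ 0 := by
    intro h0
    have h3 : ((2 : ℕ) : k) = 0 := by exact_mod_cast h0
    rw [CharP.cast_eq_zero_iff k p] at h3
    exact hp2 ((Nat.prime_dvd_prime_iff_eq hpp Nat.prime_two).1 h3)
  have : Fact (Nat.Prime 3) := ⟨Nat.prime_three⟩
  set q := p ^ 2 with hq
  have hq1 : 1 < q := Nat.one_lt_pow (by norm_num) hpp.one_lt
  have hcop3 : p.Coprime 3 := by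
    rw [Nat.coprime_primes hpp Nat.prime_three]
    exact hp3
  have hq3 : 3 ∣ q - 1 := by
    have h1 : ¬ 3 ∣ p := by
      intro h
      exact hp3 ((Nat.prime_dvd_prime_iff_eq Nat.prime_three hpp).1 h).symm
    have h2 : p % 3 = 1 ∨ p % 3 = 2 := by omega
    have h3 : q % 3 = 1 := by
      rw [hq, Nat.pow_mod]
      rcases h2 with h | h <;> rw [h]
    omega
  have hqodd : q % 2 = 1 := by
    have h1 : Odd p := hpp.odd_of_ne_two hp2
    exact Nat.odd_iff.1 (h1.pow)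
  have he1 : 1 ≤ e := by
    rw [he]
    exact one_le_padicValNat_of_dvd (by omega) hq3
  have h3e : 3 ^ e ∣ q - 1 := by
    rw [he]
    exact pow_padicValNat_dvd
  -- the numbers
  set L := 3 ^ (n - 1 - e) with hL
  set U := 2 * 3 ^ e with hU
  have hLU : L * U = 2 * 3 ^ (n - 1) := by
    rw [hL, hU, mul_comm, mul_assoc, ← pow_add]
    congr 2
    omega
  have hL1 : 1 ≤ L := Nat.one_le_pow _ _ (by norm_num)
  have hU1 : 1 ≤ U := by
    rw [hU]
    have : 1 ≤ 3 ^ e := Nat.one_le_pow _ _ (by norm_num)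
    omega
  have hqU : q ≡ 1 [MOD U] := by
    have h1 : U ∣ q - 1 := by
      rw [hU]
      refine Nat.Coprime.mul_dvd_of_dvd_of_dvd (Nat.Coprime.pow_right _ (by norm_num)) ?_ h3e
      omega
    exact ((Nat.modEq_iff_dvd' hq1.le).2 h1).symm
  have hζ1 : ζ ^ (3 ^ n) = 1 := hζ.pow_eq_one
  have hζ0 : ζ ≠ 0 := hζ.ne_zero (by positivity)
  have hξ1 : ξ ^ (2 * 3 ^ (n - 1)) = 1 := hξ.pow_eq_one
  set τ := ξ ^ L with hτ
  have hτU : τ ^ U = 1 := by rw [hτ, ← pow_mul, hLU, hξ1]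
  -- the conjugates of ξ
  set R : Finset k := (range L).image (fun j => ξ ^ (q ^ j)) with hR
  have hinj : ∀ i j, i < j → j < L → ξ ^ (q ^ i) ≠ ξ ^ (q ^ j) := by
    intro i j hij hjL heq
    have hle : q ^ i ≤ q ^ j := Nat.pow_le_pow_right (by omega) hij.le
    have h1 : ξ ^ (q ^ j - q ^ i) = 1 := by
      have h2 : ξ ^ (q ^ j - q ^ i) * ξ ^ (q ^ i) = 1 * ξ ^ (q ^ i) := by
        rw [← pow_add, Nat.sub_add_cancel hle, heq, one_mul]
      exact mul_right_cancel₀ (pow_ne_zero _ (hξ.ne_zero (by positivity))) h2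
    have h3 : 3 ^ (n - 1) ∣ q ^ j - q ^ i :=
      (dvd_mul_left _ 2).trans (hξ.dvd_of_pow_eq_one _ h1)
    have h4 : q ^ j - q ^ i = q ^ i * (q ^ (j - i) - 1) := by
      rw [Nat.mul_sub, mul_one, ← pow_add, Nat.add_sub_cancel' hij.le]
    rw [h4] at h3
    have h5 : Nat.Coprime (3 ^ (n - 1)) (q ^ i) := by
      rw [hq]
      exact Nat.Coprime.pow _ _ (Nat.Coprime.pow_right _ hcop3.symm)
    have h6 := q_order q e hq1 hq3 he (n - 1) (j - i) (h5.dvd_of_dvd_mul_left h3)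
    have h7 := Nat.le_of_dvd (by omega) h6
    rw [← hL] at h7
    omega
  have hRcard : R.card = L := by
    rw [hR, card_image_of_injOn, card_range]
    intro i hi j hj hij
    rw [coe_range, Set.mem_Iio] at hi hj
    rcases Nat.lt_trichotomy i j with h | h | h
    · exact absurd hij (hinj i j h hj)
    · exact h
    · exact absurd hij.symm (hinj j i h hi)
  have hRτ : ∀ η ∈ R, η ^ L = τ := by
    intro η hη
    rw [hR, mem_image] at hη
    obtain ⟨j, _, rfl⟩ := hη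
    rw [hτ, ← pow_mul]
    refine pow_modEq' hξ1 ?_
    rw [← hLU, mul_comm (q ^ j) L]
    have h1 : q ^ j ≡ 1 [MOD U] := by simpa using hqU.pow j
    simpa using Nat.ModEq.mul_left' L h1
  have hRa : ∀ η ∈ R, ∑ s ∈ range (L * U), η ^ s * f (ζ ^ (2 ^ s)) = 0 := by
    intro η hη
    rw [hR, mem_image] at hη
    obtain ⟨j, _, rfl⟩ := hη
    rw [hLU, hq, ← pow_mul]
    exact frob_iter p hp3 f hfq n (by omega) ζ hζ ξ hξ1 hzero (2 * j)
  have hfib := fibre_sum L U hL1 (fun s => f (ζ ^ (2 ^ s))) (fun s => by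
    rw [hLU]
    exact seq_periodic f n (by omega) ζ hζ1 s) τ hτU hU1 R hRcard hRτ hRa
  -- `B`
  obtain ⟨κ, hκ, hκ3⟩ := two_pow_add_one (n - 1 - e)
  rw [← hL, show n - 1 - e + 1 = n - e by omega] at hκ
  set B := 3 ^ (n - e) * κ with hB
  have hBB : 3 ^ n ∣ B * B := by
    have h1 : 3 ^ n ∣ 3 ^ (n - e) * 3 ^ (n - e) := by
      rw [← pow_add]
      exact pow_dvd_pow _ (by omega)
    refine h1.trans ?_
    rw [hB]
    exact mul_dvd_mul (dvd_mul_right _ _) (dvd_mul_right _ _)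
  set γ := (ζ ^ B)⁻¹ with hγ
  have hγprim : IsPrimitiveRoot γ (3 ^ e) := by
    have h1 : IsPrimitiveRoot (ζ ^ (3 ^ (n - e))) (3 ^ e) := by
      refine hζ.pow (by positivity) ?_
      rw [← pow_add]
      congr 1
      omega
    have h2 := h1.pow_of_coprime κ (Nat.Coprime.pow_right _
      ((Nat.Prime.coprime_iff_not_dvd Nat.prime_three).2 hκ3).symm)
    rw [← pow_mul, ← hB] at h2
    exact h2.inv
  -- the sum over a fibre in terms of `γ`
  have hτE : (-τ) ^ (3 ^ e) = 1 := by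
    have h1 : τ ^ (3 ^ e) = -1 := by
      rw [hτ, ← pow_mul, hL, ← pow_add, show n - 1 - e + e = n - 1 by omega]
      have h2 : IsPrimitiveRoot (ξ ^ (3 ^ (n - 1))) 2 :=
        hξ.pow (by positivity) (by ring)
      exact h2.eq_neg_one_of_two_right
    rw [neg_pow, h1, Odd.neg_one_pow (Odd.pow (by decide))]
    ring
  set Z : Finset k := (nthRootsFinset (3 ^ (n - e)) (1 : k)).image (fun ρ => ζ * ρ) with hZ
  have hZmem : ∀ w ∈ Z, w ^ B = ζ ^ B ∧ IsPrimitiveRoot w (3 ^ n) := by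
    intro w hw
    rw [hZ, mem_image] at hw
    obtain ⟨ρ, hρ, rfl⟩ := hw
    rw [mem_nthRootsFinset (by positivity)] at hρ
    constructor
    · rw [mul_pow, hB, pow_mul ρ, hρ, one_pow, mul_one]
    · rw [IsPrimitiveRoot.iff_def]
      have hρn : ρ ^ (3 ^ (n - 1)) = 1 := by
        rw [show n - 1 = (n - e) + (e - 1) by omega, pow_add 3, pow_mul, hρ, one_pow]
      have hρn' : ρ ^ (3 ^ n) = 1 := by
        rw [show n = (n - 1) + 1 by omega, pow_succ 3, pow_mul, hρn, one_pow]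
      refine ⟨by rw [mul_pow, hζ1, hρn', one_mul], ?_⟩
      intro l hl
      -- order of `ζ ρ`
      have h1 : orderOf (ζ * ρ) = 3 ^ n := by
        have h2 := orderOf_eq_prime_pow (p := 3) (n := n - 1) (x := ζ * ρ) (by
          rw [mul_pow, hρn, mul_one]
          intro h
          have := hζ.dvd_of_pow_eq_one _ h
          have := Nat.le_of_dvd (by positivity) this
          have h3 : 3 ^ (n - 1) < 3 ^ n := Nat.pow_lt_pow_right (by norm_num) (by omega)
          omega) (by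
          rw [show n - 1 + 1 = n by omega, mul_pow, hζ1, hρn', one_mul])
        rw [h2]
        congr 1
        omega
      rw [← h1]
      exact orderOf_dvd_of_pow_eq_one hl
  have hZcard : Z.card = 3 ^ (n - e) := by
    rw [hZ, card_image_of_injective]
    · have h1 : IsPrimitiveRoot (ζ ^ (3 ^ e)) (3 ^ (n - e)) := by
        refine hζ.pow (by positivity) ?_
        rw [← pow_add]
        congr 1
        omega
      exact h1.card_nthRootsFinset
    · intro a b hab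
      exact mul_left_cancel₀ hζ0 hab
  have hw1 : ∀ w ∈ Z, ∀ u, w * γ ^ u ≠ 1 := by
    intro w hw u h1
    have h2 := (hZmem w hw).2
    have h3 : (w * γ ^ u) ^ (3 ^ e) = 1 := by rw [h1, one_pow]
    rw [mul_pow, ← pow_mul, mul_comm u, pow_mul, hγprim.pow_eq_one, one_pow, mul_one] at h3
    have h4 := Nat.le_of_dvd (by positivity) (h2.dvd_of_pow_eq_one _ h3)
    have h5 : 3 ^ e < 3 ^ n := Nat.pow_lt_pow_right (by norm_num) (by omega)
    omega
  refine pole f D hD A hA1 hAdeg hfA (3 ^ e) (Nat.one_le_pow _ _ (by norm_num)) γ (-τ) hγprim Z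
    (by rw [hZcard]; exact hnD) (fun w hw => (hZmem w hw).2.ne_zero (by positivity)) hw1 ?_
  intro w hw
  obtain ⟨hwB, hwp⟩ := hZmem w hw
  obtain ⟨r, hr⟩ := prim_as_pow n (by omega) ζ w hζ hwp
  have h1 := hfib r
  have hw0 : w ≠ 0 := hwp.ne_zero (by positivity)
  have h2 : ∀ u, τ ^ u * f (ζ ^ (2 ^ (r + L * u))) = (-τ) ^ u * f (w * γ ^ u) := by
    intro u
    have h3 : ζ ^ (2 ^ (r + L * u)) = w ^ (2 ^ (L * u)) := by
      rw [hr, ← pow_mul, ← pow_add]
    have hwγ : (w ^ B)⁻¹ = γ := by rw [hwB]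
    have h4 := twist_f f hfinv w hw0 L B hκ (by
      obtain ⟨j, hj⟩ := hBB
      rw [hj, pow_mul, hwp.pow_eq_one, one_pow]) u (by
      rw [hwγ]; exact hw1 w hw u)
    rw [hwγ] at h4
    rw [h3, h4, neg_pow τ u]
    ring
  rw [sum_congr rfl (fun u _ => h2 u), hU, half_sum] at h1
  · exact (mul_eq_zero.1 h1).resolve_left h2k
  · intro u
    rw [pow_add, hτE, mul_one, pow_add, hγprim.pow_eq_one, mul_one]

end Pool.Agent.Y374.RP
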