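import Mathlib
import Pool.Agent.Y374.RP.Sin4
import Pool.Agent.Y374.RP.MainTwo
import Pool.Agent.TH10.RP.TK4

/-!
# Every number is a sum of two regular indices, for every prime
-/

set_option autoImplicit false

namespace Pool.Agent.Y374.RP

open Finset Polynomial

section Conv

variable {k : Type*} [Field k]

lemma conv (F lam : k → k) (n : ℕ) (hn : 1 ≤ n) (ζ ξ : k) (hζ1 : ζ ^ (3 ^ n) = 1)
    (hξ1 : ξ ^ (2 * 3 ^ (n - 1)) = 1)
    (h : ∀ c, ∑ s ∈ range (2 * 3 ^ (n - 1)), F (ζ ^ (2 ^ (s + c))) * lam (ζ ^ (2 ^ s)) = 0) :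
    (∑ s ∈ range (2 * 3 ^ (n - 1)), ξ ^ s * F (ζ ^ (2 ^ s))) *
      (∑ s ∈ range (2 * 3 ^ (n - 1)), (ξ⁻¹) ^ s * lam (ζ ^ (2 ^ s))) = 0 := by
  have hξ0 : ξ ≠ 0 := by
    rintro rfl
    rw [zero_pow (by positivity)] at hξ1
    exact zero_ne_one hξ1
  rw [mul_sum]
  have h1 : ∀ s, (∑ t ∈ range (2 * 3 ^ (n - 1)), ξ ^ t * F (ζ ^ (2 ^ t))) *
      ((ξ⁻¹) ^ s * lam (ζ ^ (2 ^ s))) =
      ∑ c ∈ range (2 * 3 ^ (n - 1)), ξ ^ c * (F (ζ ^ (2 ^ (s + c))) * lam (ζ ^ (2 ^ s))) := by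
    intro s
    rw [← sum_shift (2 * 3 ^ (n - 1)) (fun t => ξ ^ t * F (ζ ^ (2 ^ t))) (by
      intro t
      rw [seq_periodic F n hn ζ hζ1, pow_add, hξ1, mul_one]) s, sum_mul]
    refine sum_congr rfl fun c _ => ?_
    rw [pow_add ξ c s, add_comm c s, inv_pow]
    have := pow_ne_zero s hξ0
    field_simp
  rw [sum_congr rfl (fun s _ => h1 s), sum_comm]
  refine sum_eq_zero fun c _ => ?_
  rw [← mul_sum, h c, mul_zero]

lemma prim_sum (g : k → k) (n : ℕ) (hn : 1 ≤ n) (ζ : k) (hζ : IsPrimitiveRoot ζ (3 ^ n)) :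
    ∑ z ∈ primitiveRoots (3 ^ n) k, g z = ∑ s ∈ range (2 * 3 ^ (n - 1)), g (ζ ^ (2 ^ s)) := by
  have hpos : 0 < 3 ^ n := by positivity
  have hinj : ∀ i j, i < j → j < 2 * 3 ^ (n - 1) → ζ ^ (2 ^ i) ≠ ζ ^ (2 ^ j) := by
    intro i j hij hj heq
    have hle : 2 ^ i ≤ 2 ^ j := Nat.pow_le_pow_right (by omega) hij.le
    have h1 : ζ ^ (2 ^ j - 2 ^ i) = 1 := by
      have h2 : ζ ^ (2 ^ j - 2 ^ i) * ζ ^ (2 ^ i) = 1 * ζ ^ (2 ^ i) := by
        rw [← pow_add, Nat.sub_add_cancel hle, heq, one_mul]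
      exact mul_right_cancel₀ (pow_ne_zero _ (hζ.ne_zero (by positivity))) h2
    have h3 : 3 ^ n ∣ 2 ^ j - 2 ^ i := hζ.dvd_of_pow_eq_one _ h1
    have h4 : 2 ^ j - 2 ^ i = 2 ^ i * (2 ^ (j - i) - 1) := by
      rw [Nat.mul_sub, mul_one, ← pow_add, Nat.add_sub_cancel' hij.le]
    rw [h4] at h3
    have h5 : Nat.Coprime (3 ^ n) (2 ^ i) := Nat.Coprime.pow _ _ (by norm_num)
    have h6 : 2 ^ (j - i) ≡ 1 [MOD 3 ^ n] :=
      ((Nat.modEq_iff_dvd' (Nat.one_le_pow _ _ (by norm_num))).2 (h5.dvd_of_dvd_mul_left h3)).symm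
    have h7 := Nat.le_of_dvd (by omega) (two_order n hn _ h6)
    omega
  refine (sum_nbij (fun s => ζ ^ (2 ^ s)) ?_ ?_ ?_ ?_).symm
  · intro s _
    rw [mem_primitiveRoots hpos]
    exact hζ.pow_of_coprime _ (Nat.Coprime.pow _ _ (by norm_num))
  · intro i hi j hj hij
    rw [coe_range, Set.mem_Iio] at hi hj
    rcases Nat.lt_trichotomy i j with h | h | h
    · exact absurd hij (hinj i j h hj)
    · exact h
    · exact absurd hij.symm (hinj j i h hi)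
  · intro w hw
    rw [mem_coe, mem_primitiveRoots hpos] at hw
    obtain ⟨r, hr⟩ := prim_as_pow n hn ζ w hζ hw
    refine ⟨r % (2 * 3 ^ (n - 1)), ?_, ?_⟩
    · rw [mem_coe, mem_range]
      exact Nat.mod_lt _ (by positivity)
    · rw [hr]
      refine pow_modEq' hζ.pow_eq_one ?_
      conv_rhs => rw [← Nat.div_add_mod r (2 * 3 ^ (n - 1))]
      rw [pow_add, pow_mul]
      have h1 := (two_pow_modEq n hn).pow (r / (2 * 3 ^ (n - 1)))
      rw [one_pow] at h1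
      simpa using (h1.mul_right (2 ^ (r % (2 * 3 ^ (n - 1))))).symm
  · intro s _
    rfl

lemma erase_eq [DecidableEq k] (n : ℕ) (hn : 1 ≤ n) :
    (nthRootsFinset (3 ^ n) (1 : k)).erase 1 =
      (nthRootsFinset (3 ^ (n - 1)) (1 : k)).erase 1 ∪ primitiveRoots (3 ^ n) k := by
  have : Fact (Nat.Prime 3) := ⟨Nat.prime_three⟩
  have hnn : n - 1 + 1 = n := by omega
  ext z
  rw [mem_erase, mem_union, mem_erase, mem_nthRootsFinset (by positivity),
    mem_nthRootsFinset (by positivity), mem_primitiveRoots (by positivity)]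
  constructor
  · rintro ⟨h1, h2⟩
    by_cases h3 : z ^ 3 ^ (n - 1) = 1
    · exact Or.inl ⟨h1, h3⟩
    · right
      have h4 := orderOf_eq_prime_pow (p := 3) (n := n - 1) (x := z) h3 (by rw [hnn]; exact h2)
      rw [hnn] at h4
      rw [← h4]
      exact IsPrimitiveRoot.orderOf z
  · rintro (⟨h1, h2⟩ | h)
    · refine ⟨h1, ?_⟩
      conv_lhs => rw [← hnn, pow_succ 3, pow_mul, h2, one_pow]
    · exact ⟨h.ne_one (Nat.one_lt_pow (by omega) (by norm_num)), h.pow_eq_one⟩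

lemma erase_disj [DecidableEq k] (n : ℕ) (hn : 1 ≤ n) :
    Disjoint ((nthRootsFinset (3 ^ (n - 1)) (1 : k)).erase 1) (primitiveRoots (3 ^ n) k) := by
  rw [disjoint_left]
  intro z hz hz'
  rw [mem_erase, mem_nthRootsFinset (by positivity)] at hz
  rw [mem_primitiveRoots (by positivity)] at hz'
  have h1 := Nat.le_of_dvd (by positivity) (hz'.dvd_of_pow_eq_one _ hz.2)
  have h2 : 3 ^ (n - 1) < 3 ^ n := Nat.pow_lt_pow_right (by norm_num) (by omega)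
  omega

end Conv

end Pool.Agent.Y374.RP
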