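import Mathlib

/-!
# The coefficients of `(E + z) / (E - z)` as rational functions of `z`
-/

set_option autoImplicit false

namespace Pool.Agent.Y374.RP

open Finset

private theorem coeff_pow_self {k : Type} [Field k] (U : PowerSeries k)
    (hU : PowerSeries.constantCoeff U = 1) (n : ℕ) :
    PowerSeries.coeff n ((PowerSeries.X * U) ^ n) = 1 := by
  rw [mul_pow, PowerSeries.coeff_X_pow_mul']
  simp [hU]

private theorem coeff_mul_pow_succ {k : Type} [Field k] (U Q : PowerSeries k) (n : ℕ) :
    PowerSeries.coeff n (Q * (PowerSeries.X * U) ^ (n + 1)) = 0 := by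
  have : Q * (PowerSeries.X * U) ^ (n + 1) = PowerSeries.X ^ (n + 1) * (Q * U ^ (n + 1)) := by
    rw [mul_pow]; ring
  rw [this, PowerSeries.coeff_X_pow_mul']
  simp

private theorem geom_id {R : Type*} [CommRing R] (W a s : R) (has : a * s = 1) (n : ℕ) :
    (W + a) * (∑ j ∈ range (n + 1), (-1) ^ j * W ^ j * s ^ (j + 1))
      = 1 + (-1) ^ n * s ^ (n + 1) * W ^ (n + 1) := by
  induction n with
  | zero =>
    simp only [zero_add, sum_range_one, pow_zero, one_mul, pow_one]
    linear_combination has
  | succ m ih =>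
    rw [sum_range_succ, mul_add, ih]
    linear_combination ((-1) ^ (m + 1) * W ^ (m + 1) * s ^ (m + 1)) * has

/-- the coefficient of `(E + z) / (E - z)` at `t ^ n` is `A(z) / (1 - z) ^ (n + 1)` with a polynomial
`A` of degree at most `n + 1` with `A(1) ≠ 0` -/
theorem val_formula {k : Type} [Field k] (h2 : (2 : k) ≠ 0) (E : PowerSeries k)
    (hE0 : PowerSeries.constantCoeff E = 1)
    (hE1 : PowerSeries.coeff 1 E = 1) (n : ℕ) (hn : 1 ≤ n) :
    ∃ A : Polynomial k, A.natDegree ≤ n + 1 ∧ A.eval 1 ≠ 0 ∧ ∀ z : k, z ≠ 1 →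
      ∀ P : PowerSeries k, (E - PowerSeries.C z) * P = E + PowerSeries.C z →
        (1 - z) ^ (n + 1) * PowerSeries.coeff n P = A.eval z := by
  classical
  -- W = E - 1 = X * U
  obtain ⟨U, hU⟩ : PowerSeries.X ∣ E - 1 := by
    rw [PowerSeries.X_dvd_iff]
    simp [hE0]
  have hU0 : PowerSeries.constantCoeff U = 1 := by
    have h1 : PowerSeries.coeff 1 (E - 1) = 1 := by
      rw [map_sub, hE1, PowerSeries.coeff_one]
      simp
    rw [hU] at h1
    have h3 : PowerSeries.coeff (0 + 1) (PowerSeries.X * U) = PowerSeries.coeff 0 U :=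
      PowerSeries.coeff_succ_X_mul 0 U
    rw [zero_add] at h3
    rw [h3] at h1
    simpa using h1
  set W : PowerSeries k := E - 1 with hW
  let A : Polynomial k := Polynomial.C 2 * Polynomial.X * ∑ j ∈ range (n + 1),
    Polynomial.C ((-1) ^ j * PowerSeries.coeff n (W ^ j)) * (1 - Polynomial.X) ^ (n - j)
  have hlin : (1 - Polynomial.X : Polynomial k).natDegree ≤ 1 := by
    refine (Polynomial.natDegree_sub_le _ _).trans (max_le ?_ ?_)
    · rw [Polynomial.natDegree_one]; omega
    · exact Polynomial.natDegree_X_le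
  refine ⟨A, ?_, ?_, ?_⟩
  · have h1 : (∑ j ∈ range (n + 1), Polynomial.C ((-1) ^ j * PowerSeries.coeff n (W ^ j)) *
        (1 - Polynomial.X : Polynomial k) ^ (n - j)).natDegree ≤ n := by
      refine Polynomial.natDegree_sum_le_of_forall_le _ _ fun j _ => ?_
      refine (Polynomial.natDegree_C_mul_le _ _).trans (Polynomial.natDegree_pow_le.trans ?_)
      calc (n - j) * (1 - Polynomial.X : Polynomial k).natDegree ≤ (n - j) * 1 :=
            Nat.mul_le_mul_left _ hlin
        _ ≤ n := by omega
    have h3 : (Polynomial.C 2 * Polynomial.X : Polynomial k).natDegree ≤ 1 :=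
      (Polynomial.natDegree_C_mul_le _ _).trans Polynomial.natDegree_X_le
    refine (Polynomial.natDegree_mul_le).trans ?_
    omega
  · have h1 : A.eval 1 = 2 * ((-1) ^ n * PowerSeries.coeff n (W ^ n)) := by
      simp only [A, Polynomial.eval_mul, Polynomial.eval_C, Polynomial.eval_X, mul_one,
        Polynomial.eval_finsetSum, Polynomial.eval_pow, Polynomial.eval_sub, Polynomial.eval_one,
        sub_self]
      congr 1
      rw [Finset.sum_eq_single n]
      · simp
      · intro j hj hjn
        rw [mem_range] at hj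
        rw [zero_pow (by omega), mul_zero]
      · intro h
        exact absurd (mem_range.2 (by omega)) h
    rw [h1, hU, coeff_pow_self U hU0 n, mul_one]
    exact mul_ne_zero h2 (pow_ne_zero _ (by simp))
  · intro z hz1 P hPz
    have ha : (1 - z) ≠ 0 := sub_ne_zero.mpr (Ne.symm hz1)
    set s : k := (1 - z)⁻¹ with hs
    have has : (1 - z) * s = 1 := mul_inv_cancel₀ ha
    have hEz : E - PowerSeries.C z = W + PowerSeries.C (1 - z) := by
      rw [hW, map_sub, map_one]; ring
    have hasC : (PowerSeries.C (1 - z) : PowerSeries k) * PowerSeries.C s = 1 := by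
      rw [← map_mul, has, map_one]
    have hgeo := geom_id W (PowerSeries.C (1 - z)) (PowerSeries.C s) hasC n
    rw [← hEz] at hgeo
    set G : PowerSeries k := ∑ j ∈ range (n + 1), (-1) ^ j * W ^ j * (PowerSeries.C s) ^ (j + 1)
      with hG
    have key : P + ((-1) ^ n * (PowerSeries.C s) ^ (n + 1) * P) * W ^ (n + 1)
        = 1 + ((-1) ^ n * (PowerSeries.C s) ^ (n + 1)) * W ^ (n + 1)
          + PowerSeries.C (2 * z) * G := by
      have h2z : (PowerSeries.C (2 * z) : PowerSeries k) = 2 * PowerSeries.C z := by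
        rw [map_mul, map_ofNat]
      rw [h2z]
      linear_combination G * hPz + (1 - P) * hgeo
    have hc := congrArg (PowerSeries.coeff n) key
    rw [map_add, map_add, map_add, hU, coeff_mul_pow_succ, coeff_mul_pow_succ,
      PowerSeries.coeff_C_mul, PowerSeries.coeff_one] at hc
    have hn0 : n ≠ 0 := by omega
    rw [if_neg hn0, add_zero, add_zero, zero_add] at hc
    have hGs : PowerSeries.coeff n G =
        ∑ j ∈ range (n + 1), (-1) ^ j * s ^ (j + 1) * PowerSeries.coeff n (W ^ j) := by
      rw [hG, map_sum]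
      refine Finset.sum_congr rfl ?_
      intro j _
      have h7 : ((-1 : PowerSeries k)) ^ j * W ^ j * (PowerSeries.C s) ^ (j + 1)
          = PowerSeries.C ((-1) ^ j * s ^ (j + 1)) * W ^ j := by
        rw [map_mul, map_pow, map_pow, map_neg, map_one]; ring
      rw [h7, PowerSeries.coeff_C_mul]
    rw [hc, hGs]
    simp only [A, Polynomial.eval_mul, Polynomial.eval_C, Polynomial.eval_X,
      Polynomial.eval_finsetSum, Polynomial.eval_pow, Polynomial.eval_sub, Polynomial.eval_one]
    rw [← mul_assoc, mul_comm ((1 - z) ^ (n + 1)) (2 * z), mul_assoc, Finset.mul_sum]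
    congr 1
    refine Finset.sum_congr rfl fun j hj => ?_
    rw [mem_range] at hj
    have h8 : (1 - z) ^ (n + 1) = (1 - z) ^ (n - j) * (1 - z) ^ (j + 1) := by
      rw [← pow_add]
      congr 1
      omega
    have h9 : (1 - z) ^ (j + 1) * s ^ (j + 1) = 1 := by
      rw [← mul_pow, has, one_pow]
    rw [h8]
    linear_combination ((1 - z) ^ (n - j) * (-1) ^ j * PowerSeries.coeff n (W ^ j)) * h9

end Pool.Agent.Y374.RP
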