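import Mathlib
import Pool.Agent.Y374.RP.Two
import Pool.Agent.Y374.RP.Val
import Pool.Agent.TH10.RP.PPlus

/-!
# Every number is a sum of two regular indices, for every prime (end)
-/

set_option autoImplicit false

namespace Pool.Agent.Y374.RP

open Finset Pool.Agent.TH10.RP Pool.Agent.H582R5.RP Pool.Agent.H332R2 Pool.Agent.TH350.SumReg

section Frob

variable (p : ℕ) [Fact p.Prime]

lemma frob_EE : PowerSeries.map (frobenius (kk p) p) (EE p) = EE p := by
  ext n
  rw [PowerSeries.coeff_map]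
  unfold EE ee
  rw [PowerSeries.coeff_mk, one_pow, one_mul, map_inv₀, map_natCast]

lemma PZ_frob (z : kk p) (hz : z ≠ 1) :
    PZ p (z ^ p) = PowerSeries.map (frobenius (kk p) p) (PZ p z) := by
  have hzp : z ^ p ≠ 1 := by
    intro h
    apply hz
    have h1 : frobenius (kk p) p z = frobenius (kk p) p 1 := by
      rw [frobenius_def, frobenius_def, h, one_pow]
    exact frobenius_inj (kk p) p h1
  have h1 := congrArg (PowerSeries.map (frobenius (kk p) p)) (PZ_mul p z hz)
  rw [map_mul, map_sub, map_add, frob_EE, PowerSeries.map_C, frobenius_def] at h1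
  have h2 := PZ_mul p (z ^ p) hzp
  have h3 : EE p - PowerSeries.C (z ^ p) ≠ 0 := by
    intro h
    have h4 := congrArg PowerSeries.constantCoeff h
    rw [map_sub, EE_const, PowerSeries.constantCoeff_C, map_zero, sub_eq_zero] at h4
    exact hzp h4.symm
  exact mul_left_cancel₀ h3 (h2.trans h1.symm)

variable (N : ℕ) (hN : 2 * N + 3 ≤ p) (hN2 : 2 ≤ N)

include hN2 in
lemma LB_frob (z : kk p) (hz : z ≠ 1) :
    LB p N (PH (xx p) (z ^ p)) = LB p N (PH (xx p) z) ^ p := by
  have hzp : z ^ p ≠ 1 := by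
    intro h
    apply hz
    have h1 : frobenius (kk p) p z = frobenius (kk p) p 1 := by
      rw [frobenius_def, frobenius_def, h, one_pow]
    exact frobenius_inj (kk p) p h1
  rw [LB_PH p N hN2 z hz, LB_PH p N hN2 _ hzp, PZ_frob p z hz, PowerSeries.coeff_map, frobenius_def]

end Frob

/-- every `N ≥ 2` is a sum of two regular indices -/
theorem two_exists_all (p : ℕ) [Fact p.Prime] (N : ℕ) (hN : 2 * N + 3 ≤ p) (hN2 : 2 ≤ N) :
    ∃ i, i ≤ N ∧ cc p (2 * i) ≠ 0 ∧ cc p (2 * (N - i)) ≠ 0 := by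
  classical
  by_contra hcon
  have hno : ∀ i, i ≤ N → cc p (2 * i) = 0 ∨ cc p (2 * (N - i)) = 0 := by
    intro i hi
    by_contra h
    push Not at h
    exact hcon ⟨i, hi, h.1, h.2⟩
  have hpp : p.Prime := Fact.out
  have hp3 : p ≠ 3 := by omega
  have hp2 : p ≠ 2 := by omega
  have h2k : (2 : kk p) ≠ 0 := two_ne p hp2
  have hroot : ∀ m : ℕ, (m : kk p) ≠ 0 → ∃ ζ : kk p, IsPrimitiveRoot ζ m := by
    intro m hm
    have : NeZero (m : kk p) := ⟨hm⟩
    exact HasEnoughRootsOfUnity.exists_primitiveRoot (kk p) m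
  have hmain := main_two_all hroot (xx p) (xx_ne p)
    (fun m hm h => xx_pow_sub_ne p m hm (sub_eq_zero.2 h)) (LB p N)
    (LB_one p N hN2) (LB_single p N hN hN2)
    (fun a b ha hb => LB_double p N hN hno a b ha hb)
  -- the two functions
  set F : kk p → kk p := fun z => (z + 1) / (z - 1) with hF
  set lam : kk p → kk p := fun z => LB p N (PH (xx p) z) with hlam
  set e := padicValNat 3 (p ^ 2 - 1) with he
  set n := 2 * e + 2 * N with hn
  have h3ne : ∀ m : ℕ, ((3 ^ m : ℕ) : kk p) ≠ 0 := by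
    intro m h0
    rw [CharP.cast_eq_zero_iff (kk p) p] at h0
    have := hpp.dvd_of_dvd_pow h0
    exact hp3 ((Nat.prime_dvd_prime_iff_eq hpp Nat.prime_three).1 this)
  obtain ⟨ζ, hζ⟩ := hroot (3 ^ n) (h3ne n)
  have h23 : ((2 * 3 ^ (n - 1) : ℕ) : kk p) ≠ 0 := by
    rw [Nat.cast_mul]
    exact mul_ne_zero (by exact_mod_cast h2k) (h3ne _)
  obtain ⟨ξ, hξ⟩ := hroot (2 * 3 ^ (n - 1)) h23
  -- the sums over primitive roots
  have hprim : ∀ c : ℕ, c.Coprime 3 →
      ∑ z ∈ primitiveRoots (3 ^ n) (kk p), FF z c * lam z = 0 := by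
    intro c hc
    have h1 := hmain (3 ^ n) (h3ne n) c (Nat.Coprime.pow_right _ hc)
    have h2 := hmain (3 ^ (n - 1)) (h3ne (n - 1)) c (Nat.Coprime.pow_right _ hc)
    have h3 : (mu (kk p) (3 ^ n)).erase 1 =
        (mu (kk p) (3 ^ (n - 1))).erase 1 ∪ primitiveRoots (3 ^ n) (kk p) :=
      erase_eq n (by omega)
    have h4 : Disjoint ((mu (kk p) (3 ^ (n - 1))).erase 1) (primitiveRoots (3 ^ n) (kk p)) :=
      erase_disj n (by omega)
    rw [h3, sum_union h4, h2, zero_add] at h1
    exact h1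
  have hconv : ∀ c, ∑ s ∈ range (2 * 3 ^ (n - 1)), F (ζ ^ (2 ^ (s + c))) * lam (ζ ^ (2 ^ s)) = 0 := by
    intro c
    have h1 := hprim (2 ^ c) (Nat.Coprime.pow_left _ (by norm_num))
    rw [prim_sum _ n (by omega) ζ hζ] at h1
    rw [← h1]
    refine sum_congr rfl fun s _ => ?_
    congr 1
    rw [hF]
    unfold FF
    rw [← pow_mul, ← pow_add]
  have hprod := conv F lam n (by omega) ζ ξ hζ.pow_eq_one hξ.pow_eq_one hconv
  rcases mul_eq_zero.1 hprod with h | h
  · refine nonvanish p hp2 hp3 F 1 le_rfl (-(Polynomial.X + 1)) ?_ ?_ ?_ ?_ ?_ e he n (by omega) ?_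
      ζ ξ hζ hξ h
    · simp only [Polynomial.eval_neg, Polynomial.eval_add, Polynomial.eval_X, Polynomial.eval_one]
      rw [neg_ne_zero]
      norm_num
      exact h2k
    · rw [Polynomial.natDegree_neg]
      compute_degree
    · intro z _ hz1
      have h5 : z - 1 ≠ 0 := sub_ne_zero.2 hz1
      rw [hF]
      simp only [Polynomial.eval_neg, Polynomial.eval_add, Polynomial.eval_X, Polynomial.eval_one]
      field_simp
      ring
    · intro z hz0 hz1
      have h5 : z - 1 ≠ 0 := sub_ne_zero.2 hz1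
      have h6 : 1 - z ≠ 0 := sub_ne_zero.2 hz1.symm
      have h7 : z⁻¹ - 1 ≠ 0 := by
        rw [sub_ne_zero]
        intro h
        exact hz1 (inv_eq_one.1 h)
      rw [hF]
      simp only
      rw [div_eq_iff h7, neg_mul, div_mul_eq_mul_div, eq_neg_iff_add_eq_zero, add_comm,
        div_add' _ _ _ h5, div_eq_zero_iff]
      left
      field_simp
      ring
    · intro z _ _
      rw [hF]
      simp only
      rw [div_pow, ← frobenius_def p z, ← frobenius_def p (z + 1), ← frobenius_def p (z - 1), map_add,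
        map_sub, map_one]
    · rw [mul_one]
      exact Nat.pow_lt_pow_right (by norm_num) (by omega)
  · obtain ⟨A, hAdeg, hA1, hA⟩ := val_formula h2k (EE p) (EE_const p) (EE_one p) (2 * N - 2) (by omega)
    refine nonvanish p hp2 hp3 lam (2 * N - 2 + 1) (by omega) A hA1 hAdeg ?_ ?_ ?_ e he n (by omega) ?_
      ζ ξ⁻¹ hζ hξ.inv h
    · intro z _ hz1
      rw [hlam]
      simp only
      rw [LB_PH p N hN2 z hz1]
      exact hA z hz1 (PZ p z) (PZ_mul p z hz1)
    · intro z _ _
      exact LB_odd p N hN hN2 z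
    · intro z _ hz1
      exact LB_frob p N hN2 z hz1
    · rw [show n - e = e + 2 * N by omega, pow_add]
      refine Nat.mul_lt_mul_of_pos_left ?_ (by positivity)
      calc 2 * N - 2 + 1 < 2 * N := by omega
        _ < 3 ^ (2 * N) := Nat.lt_pow_self (by norm_num)

/-- every `N` is a sum of two regular indices (`0` is one) in more than `√(2N) / 3` ways -/
theorem rep_all (p : ℕ) [Fact p.Prime] (N : ℕ) (hN : 2 * N + 3 ≤ p) :
    2 * N < 9 * ((range (N + 1)).filter (fun i => ww p N i ≠ 0)).card ^ 2 := by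
  refine rep_bound p N hN ?_
  rcases Nat.lt_or_ge N 2 with h | h
  · have h0 : cc p (2 * 0) ≠ 0 := by
      rw [Ne, cc_eq_zero_iff (by omega) (by omega)]
      rw [Nat.mul_zero, _root_.bernoulli_zero]
      intro h
      have := Int.le_of_dvd (by norm_num) h
      simp at this
      omega
    rcases Nat.lt_or_ge N 1 with h1 | h1
    · have : N = 0 := by omega
      subst this
      refine ⟨0, le_rfl, ?_⟩
      unfold ww
      exact mul_ne_zero h0 h0
    · have : N = 1 := by omega
      subst this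
      refine ⟨1, le_rfl, ?_⟩
      unfold ww
      have h1 : cc p (2 * 1) ≠ 0 := by
        rw [Ne, cc_eq_zero_iff (by omega) (by omega), num_two]
        intro h
        have := Int.le_of_dvd (by norm_num) h
        omega
      exact mul_ne_zero h1 h0
  · obtain ⟨i, h1, h2, h3⟩ := two_exists_all p N hN h
    refine ⟨i, h1, ?_⟩
    unfold ww
    exact mul_ne_zero h2 h3

end Pool.Agent.Y374.RP
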