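import Mathlib
import Pool.Agent.TH350.RC.WZ

/-!
# The operators that kill given monomials
-/

set_option autoImplicit false

namespace Pool.Agent.Y374.RP

open Polynomial Finset Pool.Agent.TH350.WZ

variable {F : Type*} [Field F]

/-- the operator `∏_{a ∈ l} (X d/dX - a)` -/
noncomputable def opL : List ℕ → F[X] → F[X]
  | [], g => g
  | a :: l, g => X * derivative (opL l g) - C (a : F) * opL l g

lemma coeff_X_der (g : F[X]) (b : ℕ) : (X * derivative g).coeff b = (b : F) * g.coeff b := by
  rcases b with _ | b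
  · simp
  · rw [coeff_X_mul, coeff_derivative]
    push_cast
    ring

lemma coeff_opL (l : List ℕ) (g : F[X]) (b : ℕ) :
    (opL l g).coeff b = g.coeff b * (l.map (fun a : ℕ => (b : F) - (a : F))).prod := by
  induction l with
  | nil => simp [opL]
  | cons a l ih =>
    rw [opL, coeff_sub, coeff_X_der, coeff_C_mul, ih, List.map_cons, List.prod_cons]
    ring

lemma opL_add (l : List ℕ) (g h : F[X]) : opL l (g + h) = opL l g + opL l h := by
  ext b
  rw [coeff_add, coeff_opL, coeff_opL, coeff_opL, coeff_add]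
  ring

lemma opL_C_mul (l : List ℕ) (c : F) (g : F[X]) : opL l (C c * g) = C c * opL l g := by
  ext b
  rw [coeff_C_mul, coeff_opL, coeff_opL, coeff_C_mul]
  ring

lemma opL_zero (l : List ℕ) : opL l (0 : F[X]) = 0 := by
  ext b
  rw [coeff_opL, coeff_zero, zero_mul]

lemma opL_sum {ι : Type*} (l : List ℕ) (s : Finset ι) (f : ι → F[X]) :
    opL l (∑ i ∈ s, f i) = ∑ i ∈ s, opL l (f i) := by
  ext b
  rw [coeff_opL, finsetSum_coeff, finsetSum_coeff, Finset.sum_mul]
  refine Finset.sum_congr rfl fun i _ => ?_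
  rw [coeff_opL]

lemma opL_X_pow (l : List ℕ) (b : ℕ) :
    opL l (X ^ b : F[X]) = C ((l.map (fun a : ℕ => (b : F) - (a : F))).prod) * X ^ b := by
  ext m
  rw [coeff_opL, coeff_C_mul, coeff_X_pow]
  split_ifs with h
  · rw [h]; ring
  · simp

lemma natDegree_opL (l : List ℕ) (g : F[X]) (n : ℕ) (hg : g.natDegree ≤ n) :
    (opL l g).natDegree ≤ n := by
  rw [natDegree_le_iff_coeff_eq_zero] at hg ⊢
  intro m hm
  rw [coeff_opL, hg m hm, zero_mul]

/-- the operator lowers the order at `-1` by at most its length -/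
lemma dvd_opL (l : List ℕ) (g : F[X]) (M : ℕ) (h : (X + 1) ^ (M + l.length) ∣ g) :
    (X + 1) ^ M ∣ opL l g := by
  induction l generalizing M with
  | nil => simpa [opL] using h
  | cons a l ih =>
    have h1 : (X + 1) ^ (M + 1) ∣ opL l g := by
      refine ih (M + 1) ?_
      rw [List.length_cons] at h
      rwa [show M + 1 + l.length = M + (l.length + 1) by ring]
    rw [opL]
    refine dvd_sub ?_ (((pow_dvd_pow (X + 1 : F[X]) (Nat.le_succ M)).trans h1).mul_left _)
    obtain ⟨k, hk⟩ := h1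
    rw [hk, derivative_mul, derivative_pow]
    have h2 : (X + 1 : F[X]) ^ (M + 1) = (X + 1) ^ M * (X + 1) := pow_succ _ _
    refine ⟨X * (C ((M + 1 : ℕ) : F) * k + (X + 1) * derivative k), ?_⟩
    rw [h2, Nat.add_sub_cancel]
    simp
    ring

/-- a basic step -/
lemma dl_step (m n : ℕ) (g Q : F[X]) (s : ℕ × ℕ) (h : (X + 1) ^ m * g = ph s * Q)
    (hQ : Q.natDegree ≤ n) :
    ∃ Q' : F[X], (X + 1) ^ m * dl g = ph s * Q' ∧ Q'.natDegree ≤ n + 1 := by
  refine ⟨dl Q + (C (s.1 : F) * (X + 1) + C (s.2 : F) * X) * Q - C (m : F) * X * Q, ?_, ?_⟩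
  · have h1 := congrArg dl h
    rw [dl_mul, dl_mul, dl_ph] at h1
    have h2 : dl ((X + 1 : F[X]) ^ m) = C (m : F) * X * (X + 1) ^ m := by
      have := dl_ph (F := F) (0, m)
      unfold ph at this
      simp only [pow_zero, one_mul, Nat.cast_zero, map_zero, zero_mul, zero_add] at this
      rw [this]; ring
    rw [h2] at h1
    linear_combination h1 - (C (m : F) * X) * h
  · refine (natDegree_sub_le _ _).trans (max_le ((natDegree_add_le _ _).trans
      (max_le (natDegree_dl _ _ hQ) ?_)) ?_)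
    · have h2 : (C (s.1 : F) * (X + 1) + C (s.2 : F) * X : F[X]).natDegree ≤ 1 := by compute_degree
      have h3 := natDegree_mul_le (p := (C (s.1 : F) * (X + 1) + C (s.2 : F) * X : F[X])) (q := Q)
      omega
    · have h2 : (C (m : F) * X : F[X]).natDegree ≤ 1 := by compute_degree
      have h3 := natDegree_mul_le (p := (C (m : F) * X : F[X])) (q := Q)
      omega

lemma opL_ph (l : List ℕ) (s : ℕ × ℕ) : ∃ Q : F[X],
    (X + 1) ^ l.length * opL l (ph s : F[X]) = ph s * Q ∧ Q.natDegree ≤ l.length := by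
  induction l with
  | nil => exact ⟨1, by simp [opL], by simp⟩
  | cons a l ih =>
    obtain ⟨Q, h1, h2⟩ := ih
    obtain ⟨Q', h3, h4⟩ := dl_step l.length l.length (opL l (ph s)) Q s h1 h2
    refine ⟨Q' - C (a : F) * (X + 1) * Q, ?_, ?_⟩
    · rw [List.length_cons, opL, pow_succ]
      unfold dl at h3
      linear_combination h3 - C (a : F) * (X + 1) * h1
    · rw [List.length_cons]
      refine (natDegree_sub_le _ _).trans (max_le h4 ?_)
      have h5 : (C (a : F) * (X + 1) : F[X]).natDegree ≤ 1 := by compute_degree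
      have h6 := natDegree_mul_le (p := (C (a : F) * (X + 1) : F[X])) (q := Q)
      omega

lemma dl_iter_opL_ph (l : List ℕ) (s : ℕ × ℕ) (i : ℕ) : ∃ Q : F[X],
    (X + 1) ^ l.length * dl^[i] (opL l (ph s : F[X])) = ph s * Q ∧ Q.natDegree ≤ l.length + i := by
  induction i with
  | zero =>
    obtain ⟨Q, h1, h2⟩ := opL_ph (F := F) l s
    exact ⟨Q, by simpa using h1, by simpa using h2⟩
  | succ i ih =>
    obtain ⟨Q, h1, h2⟩ := ih
    obtain ⟨Q', h3, h4⟩ := dl_step l.length (l.length + i) _ Q s h1 h2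
    refine ⟨Q', ?_, by omega⟩
    rw [Function.iterate_succ_apply']
    exact h3

end Pool.Agent.Y374.RP
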