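import Mathlib
import Pool.Agent.Y374.RP.Op

/-!
# A zero estimate for sums of monomials and few polynomials `X^e (X+1)^a`
-/

set_option autoImplicit false

namespace Pool.Agent.Y374.RP

open Polynomial Finset Pool.Agent.TH350.WZ

variable {F : Type*} [Field F]

/-- the determinant bound -/
lemma natDegree_det_bound (t n : ℕ) (G : Matrix (Fin (t + 1)) (Fin (t + 1)) F[X])
    (h0 : ∀ i, (G i 0).natDegree ≤ (i : ℕ))
    (h1 : ∀ i (j : Fin t), (G i j.succ).natDegree ≤ n + (i : ℕ)) :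
    2 * G.det.natDegree ≤ 2 * (n * t) + t * (t + 1) := by
  have h : G.det.natDegree ≤ n * t + ∑ i : Fin (t + 1), (i : ℕ) := by
    rw [Matrix.det_apply]
    refine natDegree_sum_le_of_forall_le _ _ (fun σ _ => ?_)
    have h2 : (Equiv.Perm.sign σ • ∏ i, G (σ i) i).natDegree ≤ (∏ i, G (σ i) i).natDegree := by
      rcases Int.units_eq_one_or (Equiv.Perm.sign σ) with h | h
      · rw [h]; simp
      · rw [h]; simp
    refine h2.trans ((natDegree_prod_le _ _).trans ?_)
    have h3 : ∑ i : Fin (t + 1), (i : ℕ) = ∑ i : Fin (t + 1), (σ i : ℕ) :=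
      (Equiv.sum_comp σ (fun i : Fin (t + 1) => (i : ℕ))).symm
    rw [h3, Fin.sum_univ_succ, Fin.sum_univ_succ (fun i => (σ i : ℕ))]
    have h4 : ∑ j : Fin t, (G (σ j.succ) j.succ).natDegree ≤ ∑ j : Fin t, (n + (σ j.succ : ℕ)) :=
      Finset.sum_le_sum fun j _ => h1 _ j
    have h5 : ∑ j : Fin t, (n + (σ j.succ : ℕ)) = n * t + ∑ j : Fin t, (σ j.succ : ℕ) := by
      rw [Finset.sum_add_distrib, Finset.sum_const, card_univ, Fintype.card_fin, smul_eq_mul, mul_comm]
    have h6 := h0 (σ 0)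
    omega
  have h2 : ∑ i : Fin (t + 1), (i : ℕ) = ∑ i ∈ range (t + 1), i :=
    Fin.sum_univ_eq_sum_range (fun i => i) (t + 1)
  have h3 := Finset.sum_range_id_mul_two (t + 1)
  rw [h2] at h
  rw [Nat.add_sub_cancel] at h3
  nlinarith

/-- The zero estimate for independent functions. -/
theorem zest_ind (p : ℕ) [Fact p.Prime] [CharP F p] (E : Finset ℕ) (hE : ∀ a ∈ E, a < p) (t : ℕ)
    (s : Fin t → ℕ × ℕ) (hs : ∀ j, (s j).1 + (s j).2 < p)
    (hind : ∀ (c : ℕ → F) (d : Fin t → F), ∑ a ∈ E, C (c a) * X ^ a + ∑ j, C (d j) * ph (s j) = 0 →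
      (∀ a ∈ E, c a = 0) ∧ ∀ j, d j = 0)
    (c : ℕ → F) (d : Fin t → F) (a0 : ℕ) (ha0 : a0 ∈ E) (hc : c a0 ≠ 0) (M : ℕ)
    (hM : (X + 1) ^ M ∣ ∑ a ∈ E, C (c a) * (X : F[X]) ^ a + ∑ j, C (d j) * ph (s j)) :
    2 * M ≤ 2 * (t + 1) * (E.card - 1) + t * (t + 1) := by
  classical
  set l := (E.erase a0).toList with hl
  have hlen : l.length = E.card - 1 := by
    rw [hl, Finset.length_toList, card_erase_of_mem ha0]
  set n := E.card - 1 with hn
  rcases Nat.lt_or_ge M n with hMn | hMn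
  · nlinarith
  have hml : ∀ a, a ∈ l ↔ a ≠ a0 ∧ a ∈ E := by
    intro a
    rw [hl, Finset.mem_toList, mem_erase]
  -- the factor on monomials
  have hcast : ∀ a b : ℕ, a < p → b < p → a ≠ b → (b : F) - (a : F) ≠ 0 := by
    intro a b ha hb hab h
    rw [sub_eq_zero] at h
    have := ((CharP.natCast_eq_natCast F p).1 h).eq_of_lt_of_lt hb ha
    exact hab this.symm
  have hprod : ∀ b : ℕ, b < p → b ∉ l → (l.map (fun a : ℕ => (b : F) - (a : F))).prod ≠ 0 := by
    intro b hb hbl
    refine List.prod_ne_zero ?_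
    intro h
    rw [List.mem_map] at h
    obtain ⟨a, hal, ha⟩ := h
    exact hcast a b (hE a ((hml a).1 hal).2) hb (fun h => hbl (h ▸ hal)) ha
  have hprod0 : ∀ b : ℕ, b ∈ l → (l.map (fun a : ℕ => (b : F) - (a : F))).prod = 0 := by
    intro b hb
    exact List.prod_eq_zero (List.mem_map.2 ⟨b, hb, sub_self _⟩)
  have ha0l : a0 ∉ l := fun h => ((hml a0).1 h).1 rfl
  set κ := (l.map (fun a : ℕ => (a0 : F) - (a : F))).prod with hκ
  have hκ0 : κ ≠ 0 := hprod a0 (hE a0 ha0) ha0l
  set f : F[X] := ∑ a ∈ E, C (c a) * (X : F[X]) ^ a + ∑ j, C (d j) * ph (s j) with hf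
  set f1 : F[X] := opL l f with hf1
  have hf1e : f1 = C (c a0 * κ) * X ^ a0 + ∑ j, C (d j) * opL l (ph (s j)) := by
    rw [hf1, hf, opL_add, opL_sum, opL_sum, ← add_sum_erase _ _ ha0, opL_C_mul, opL_X_pow, ← hκ,
      Finset.sum_eq_zero (s := E.erase a0), add_zero]
    · congr 1
      · rw [C_mul]; ring
      · refine Finset.sum_congr rfl fun j _ => ?_
        rw [opL_C_mul]
    · intro a ha
      rw [opL_C_mul, opL_X_pow, hprod0 a (by rw [hl, Finset.mem_toList]; exact ha), C_0, zero_mul,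
        mul_zero]
  have hM1 : (X + 1) ^ (M - n) ∣ f1 := by
    refine dvd_opL l f (M - n) ?_
    rw [hlen, Nat.sub_add_cancel hMn]
    exact hM
  -- the functions
  set φ : Fin (t + 1) → F[X] := Fin.cons (X ^ a0) (fun j => opL l (ph (s j))) with hφ
  have hphd : ∀ j, (ph (s j) : F[X]).natDegree ≤ p - 1 := by
    intro j
    unfold ph
    have h1 := natDegree_mul_le (p := (X ^ (s j).1 : F[X])) (q := (X + 1) ^ (s j).2)
    have h2 : (X ^ (s j).1 : F[X]).natDegree ≤ (s j).1 := natDegree_X_pow_le _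
    have h3 : ((X + 1) ^ (s j).2 : F[X]).natDegree ≤ (s j).2 := by
      refine natDegree_pow_le.trans ?_
      have : (X + 1 : F[X]).natDegree ≤ 1 := by compute_degree
      nlinarith
    have := hs j
    omega
  have hpp : p.Prime := Fact.out
  have hφdeg : ∀ j, (φ j).natDegree < p := by
    intro j
    refine Fin.cases ?_ (fun j => ?_) j
    · rw [hφ, Fin.cons_zero]
      exact (natDegree_X_pow_le _).trans_lt (hE a0 ha0)
    · rw [hφ, Fin.cons_succ]
      have := natDegree_opL l _ _ (hphd j)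
      have := hpp.pos
      omega
  have hφind : LinearIndependent F φ := by
    rw [Fintype.linearIndependent_iff]
    intro g hg
    rw [Fin.sum_univ_succ] at hg
    simp only [hφ, Fin.cons_zero, Fin.cons_succ, smul_eq_C_mul] at hg
    set q : F[X] := C (g 0 / κ) * X ^ a0 + ∑ j, C (g (Fin.succ j)) * ph (s j) with hq
    have hLq : opL l q = 0 := by
      rw [hq, opL_add, opL_sum, opL_C_mul, opL_X_pow, ← hκ, ← hg]
      congr 1
      · rw [← mul_assoc, ← C_mul, div_mul_cancel₀ _ hκ0]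
      · refine Finset.sum_congr rfl fun j _ => ?_
        rw [opL_C_mul]
    have hqdeg : q.natDegree ≤ p - 1 := by
      rw [hq]
      refine (natDegree_add_le _ _).trans (max_le ?_ ?_)
      · refine (natDegree_C_mul_X_pow_le _ _).trans ?_
        have := hE a0 ha0
        omega
      · refine natDegree_sum_le_of_forall_le _ _ fun j _ => ?_
        exact (natDegree_C_mul_le _ _).trans (hphd j)
    have hqc : ∀ b, b ∉ E.erase a0 → q.coeff b = 0 := by
      intro b hb
      rcases Nat.lt_or_ge b p with hbp | hbp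
      · have h1 := congrArg (fun P => coeff P b) hLq
        simp only [coeff_opL, coeff_zero] at h1
        rcases mul_eq_zero.1 h1 with h2 | h2
        · exact h2
        · exact absurd h2 (hprod b hbp (by rw [hl, Finset.mem_toList]; exact hb))
      · exact coeff_eq_zero_of_natDegree_lt (by have := hpp.pos; omega)
    have hqe : q = ∑ a ∈ E.erase a0, C (q.coeff a) * X ^ a := by
      ext b
      rw [finsetSum_coeff]
      simp only [coeff_C_mul, coeff_X_pow, mul_ite, mul_one, mul_zero]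
      rw [Finset.sum_ite_eq (E.erase a0) b]
      split_ifs with hb
      · rfl
      · exact hqc b hb
    have hrel := hind (fun a => if a = a0 then g 0 / κ else - q.coeff a) (fun j => g (Fin.succ j)) (by
      rw [← add_sum_erase _ _ ha0, if_pos rfl]
      have h2 : ∑ a ∈ E.erase a0, C (if a = a0 then g 0 / κ else - q.coeff a) * (X : F[X]) ^ a =
          - ∑ a ∈ E.erase a0, C (q.coeff a) * X ^ a := by
        rw [← Finset.sum_neg_distrib]
        refine Finset.sum_congr rfl fun a ha => ?_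
        rw [if_neg (ne_of_mem_erase ha), C_neg, neg_mul]
      rw [h2, ← hqe]
      linear_combination -hq)
    obtain ⟨h3, h4⟩ := hrel
    intro j
    refine Fin.cases ?_ (fun j => ?_) j
    · have h5 := h3 a0 ha0
      rw [if_pos rfl, div_eq_zero_iff] at h5
      exact h5.resolve_right hκ0
    · exact h4 j
  -- the matrix
  have hex : ∀ (j : Fin t) (i : ℕ), ∃ Q : F[X],
      (X + 1) ^ n * dl^[i] (opL l (ph (s j) : F[X])) = ph (s j) * Q ∧ Q.natDegree ≤ n + i := by
    intro j i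
    have := dl_iter_opL_ph (F := F) l (s j) i
    rwa [hlen] at this
  choose Q hQ1 hQ2 using hex
  set G : Matrix (Fin (t + 1)) (Fin (t + 1)) F[X] :=
    Matrix.of fun i j => (Fin.cons (Gs (a0, 0) (i : ℕ)) (fun j' => Q j' (i : ℕ)) : Fin (t + 1) → F[X]) j
    with hG
  have hG0 : ∀ i, G i 0 = Gs (a0, 0) (i : ℕ) := by
    intro i
    rw [hG, Matrix.of_apply, Fin.cons_zero]
  have hG1 : ∀ i (j : Fin t), G i j.succ = Q j (i : ℕ) := by
    intro i j
    rw [hG, Matrix.of_apply, Fin.cons_succ]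
  have hph0 : (X ^ a0 : F[X]) = ph (a0, 0) := by simp [ph]
  have hdet : G.det ≠ 0 := by
    intro h0
    obtain ⟨u, hu0, hu⟩ := Matrix.exists_vecMul_eq_zero_iff.2 h0
    apply hu0
    refine nonvanish p (t + 1) φ hφind hφdeg u (fun j => ?_)
    have h1 := congrFun hu j
    simp only [Matrix.vecMul, dotProduct, Pi.zero_apply] at h1
    revert h1
    refine Fin.cases (fun h1 => ?_) (fun j h1 => ?_) j
    · have h2 : ∑ i, u i * dl^[(i : ℕ)] (φ 0) = ph (a0, 0) * ∑ i, u i * G i 0 := by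
        rw [Finset.mul_sum]
        refine Finset.sum_congr rfl (fun i _ => ?_)
        rw [hG0, hφ, Fin.cons_zero, hph0, dl_iter_ph]; ring
      rw [h2, h1, mul_zero]
    · have h2 : (X + 1 : F[X]) ^ n * ∑ i, u i * dl^[(i : ℕ)] (φ j.succ) =
          ph (s j) * ∑ i, u i * G i j.succ := by
        rw [Finset.mul_sum, Finset.mul_sum]
        refine Finset.sum_congr rfl (fun i _ => ?_)
        rw [hG1, hφ, Fin.cons_succ]
        linear_combination (u i) * hQ1 j (i : ℕ)
      rw [h1, mul_zero] at h2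
      rcases mul_eq_zero.1 h2 with h3 | h3
      · have : (X + 1 : F[X]) ≠ 0 := X_add_C_ne_zero 1
        exact absurd h3 (pow_ne_zero _ this)
      · exact h3
  -- Cramer
  have hGm : G.mulVec (Fin.cons (C (c a0 * κ) * (ph (a0, 0) * (X + 1) ^ n))
      (fun j => C (d j) * ph (s j)) : Fin (t + 1) → F[X]) =
      fun i : Fin (t + 1) => (X + 1) ^ n * dl^[(i : ℕ)] f1 := by
    funext i
    rw [hf1e, hph0]
    simp only [Matrix.mulVec, dotProduct]
    rw [Fin.sum_univ_succ, Fin.cons_zero, hG0]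
    simp only [Fin.cons_succ, hG1]
    have e1 : dl^[(i : ℕ)] (C (c a0 * κ) * ph (a0, 0) + ∑ j, C (d j) * opL l (ph (s j) : F[X])) =
        C (c a0 * κ) * (ph (a0, 0) * Gs (a0, 0) (i : ℕ)) +
          ∑ j, C (d j) * dl^[(i : ℕ)] (opL l (ph (s j) : F[X])) := by
      have e2 := dl_iter_sum (F := F) (Finset.univ : Finset (Fin (t + 1)))
        (Fin.cons (C (c a0 * κ) * ph (a0, 0)) (fun j => C (d j) * opL l (ph (s j)))) (i : ℕ)
      rw [Fin.sum_univ_succ, Fin.sum_univ_succ] at e2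
      simp only [Fin.cons_zero, Fin.cons_succ] at e2
      rw [e2, dl_iter_C_mul, dl_iter_ph]
      congr 1
      refine Finset.sum_congr rfl fun j _ => ?_
      rw [dl_iter_C_mul]
    rw [e1, mul_add, Finset.mul_sum]
    congr 1
    · ring
    · refine Finset.sum_congr rfl fun j _ => ?_
      linear_combination (- C (d j)) * hQ1 j (i : ℕ)
  have hadj : G.det • (Fin.cons (C (c a0 * κ) * (ph (a0, 0) * (X + 1) ^ n))
      (fun j => C (d j) * ph (s j)) : Fin (t + 1) → F[X]) =
      G.adjugate.mulVec (fun i : Fin (t + 1) => (X + 1) ^ n * dl^[(i : ℕ)] f1) := by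
    rw [← hGm, Matrix.mulVec_mulVec, Matrix.adjugate_mul, Matrix.smul_mulVec, Matrix.one_mulVec]
  have hdvd : (X + 1) ^ M ∣ G.det * (C (c a0 * κ) * (ph (a0, 0) * (X + 1) ^ n)) := by
    have h1 := congrFun hadj 0
    simp only [Pi.smul_apply, smul_eq_mul, Matrix.mulVec, dotProduct, Fin.cons_zero] at h1
    rw [h1]
    refine Finset.dvd_sum (fun i _ => Dvd.dvd.mul_left ?_ _)
    have h2 := mul_dvd_mul (dvd_refl ((X + 1 : F[X]) ^ n)) (dvd_dl_iter (M - n) f1 hM1 (i : ℕ))
    rwa [← pow_add, Nat.add_sub_cancel' hMn] at h2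
  have hcop : IsCoprime ((X + 1 : F[X]) ^ M) (ph (a0, 0)) := by
    unfold ph
    simp only [pow_zero, mul_one]
    refine IsCoprime.pow ?_
    exact ⟨1, -1, by ring⟩
  have hdvd2 : (X + 1) ^ M ∣ G.det * (X + 1) ^ n := by
    have h1 : G.det * (C (c a0 * κ) * (ph (a0, 0) * (X + 1) ^ n)) =
        ph (a0, 0) * (C (c a0 * κ) * (G.det * (X + 1) ^ n)) := by ring
    rw [h1] at hdvd
    have h2 := hcop.dvd_of_dvd_mul_left hdvd
    have h3 : G.det * (X + 1) ^ n = C ((c a0 * κ)⁻¹) * (C (c a0 * κ) * (G.det * (X + 1) ^ n)) := by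
      rw [← mul_assoc, ← C_mul, inv_mul_cancel₀ (mul_ne_zero hc hκ0), C_1, one_mul]
    rw [h3]
    exact h2.mul_left _
  have hX1 : (X + 1 : F[X]) ≠ 0 := X_add_C_ne_zero 1
  have h5 := natDegree_le_of_dvd hdvd2 (mul_ne_zero hdet (pow_ne_zero _ hX1))
  have hX1d : ∀ m : ℕ, ((X + 1 : F[X]) ^ m).natDegree = m := by
    intro m
    have e : (X + 1 : F[X]) = X + C 1 := by simp
    rw [natDegree_pow, e, natDegree_X_add_C, mul_one]
  rw [hX1d, natDegree_mul hdet (pow_ne_zero _ hX1), hX1d] at h5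
  have h7 := natDegree_det_bound t n G (fun i => by rw [hG0]; exact natDegree_Gs _ _)
    (fun i j => by rw [hG1]; exact hQ2 j _)
  nlinarith

end Pool.Agent.Y374.RP
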