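import Mathlib
import Pool.Agent.Y374.RP.ZE2

/-!
# A zero estimate for sums of monomials and few polynomials `X^e (X+1)^a` (2)
-/

set_option autoImplicit false

namespace Pool.Agent.Y374.RP

open Polynomial Finset Pool.Agent.TH350.WZ

variable {F : Type*} [Field F]

/-- independence of the monomials with exponents in `E` and the `ph t`, `t ∈ T` -/
def Ind (F : Type*) [Field F] (E : Finset ℕ) (T : Finset (ℕ × ℕ)) : Prop :=
  ∀ (c : ℕ → F) (d : ℕ × ℕ → F), ∑ a ∈ E, C (c a) * (X : F[X]) ^ a + ∑ t ∈ T, C (d t) * ph t = 0 →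
    (∀ a ∈ E, c a = 0) ∧ ∀ t ∈ T, d t = 0

lemma ind_empty (E : Finset ℕ) : Ind F E ∅ := by
  intro c d h
  refine ⟨fun a ha => ?_, fun t ht => absurd ht (notMem_empty t)⟩
  rw [Finset.sum_empty, add_zero] at h
  have h1 := congrArg (fun P => coeff P a) h
  simp only [finsetSum_coeff, coeff_C_mul, coeff_X_pow, mul_ite, mul_one, mul_zero, coeff_zero] at h1
  rw [Finset.sum_ite_eq E a, if_pos ha] at h1
  exact h1

/-- The zero estimate. -/
theorem zest_gen (p : ℕ) [Fact p.Prime] [CharP F p] (E : Finset ℕ) (hE : ∀ a ∈ E, a < p)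
    (T : Finset (ℕ × ℕ)) (hT : ∀ t ∈ T, t.1 + t.2 < p) (c : ℕ → F) (d : ℕ × ℕ → F) (M : ℕ)
    (hM : (X + 1) ^ M ∣ ∑ a ∈ E, C (c a) * (X : F[X]) ^ a + ∑ t ∈ T, C (d t) * ph t)
    (hH : ∀ d' : ℕ × ℕ → F, ∑ a ∈ E, C (c a) * (X : F[X]) ^ a + ∑ t ∈ T, C (d t) * ph t ≠
      ∑ t ∈ T, C (d' t) * ph t) :
    2 * M ≤ 2 * (T.card + 1) * (E.card - 1) + T.card * (T.card + 1) := by
  classical
  obtain ⟨T', hT'm, hmax⟩ := exists_max_image (T.powerset.filter (fun S => Ind F E S)) card
    ⟨∅, mem_filter.2 ⟨mem_powerset.2 (empty_subset _), ind_empty E⟩⟩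
  rw [mem_filter, mem_powerset] at hT'm
  obtain ⟨hsub, hind⟩ := hT'm
  have hrep : ∀ t ∈ T, ∃ (ct : ℕ → F) (dt : ℕ × ℕ → F), (ph t : F[X]) =
      ∑ a ∈ E, C (ct a) * (X : F[X]) ^ a + ∑ u ∈ T', C (dt u) * ph u := by
    intro t ht
    by_cases htT' : t ∈ T'
    · refine ⟨fun _ => 0, fun u => if u = t then 1 else 0, ?_⟩
      have h1 : ∑ u ∈ T', C (if u = t then (1 : F) else 0) * ph u = ph t := by
        rw [Finset.sum_eq_single t]
        · rw [if_pos rfl, C_1, one_mul]
        · intro u _ hu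
          rw [if_neg hu, C_0, zero_mul]
        · intro h
          exact absurd htT' h
      rw [h1]
      simp
    · have hnot : ¬ Ind F E (insert t T') := by
        intro h
        have h1 := hmax (insert t T') (mem_filter.2 ⟨mem_powerset.2 (insert_subset ht hsub), h⟩)
        rw [card_insert_of_notMem htT'] at h1
        omega
      unfold Ind at hnot
      push Not at hnot
      obtain ⟨c1, d1, h1, h2⟩ := hnot
      rw [sum_insert htT'] at h1
      have hdt : d1 t ≠ 0 := by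
        intro h0
        rw [h0, C_0, zero_mul, zero_add] at h1
        obtain ⟨h3, h4⟩ := hind c1 d1 h1
        obtain ⟨u, hu, hu0⟩ := h2 h3
        rw [mem_insert] at hu
        rcases hu with rfl | hu
        · exact hu0 h0
        · exact hu0 (h4 u hu)
      refine ⟨fun a => - (d1 t)⁻¹ * c1 a, fun u => - (d1 t)⁻¹ * d1 u, ?_⟩
      have h3 : ∑ a ∈ E, C (- (d1 t)⁻¹ * c1 a) * (X : F[X]) ^ a =
          - C ((d1 t)⁻¹) * ∑ a ∈ E, C (c1 a) * X ^ a := by
        rw [Finset.mul_sum]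
        refine Finset.sum_congr rfl fun a _ => ?_
        rw [C_mul, C_neg]; ring
      have h4 : ∑ u ∈ T', C (- (d1 t)⁻¹ * d1 u) * (ph u : F[X]) =
          - C ((d1 t)⁻¹) * ∑ u ∈ T', C (d1 u) * ph u := by
        rw [Finset.mul_sum]
        refine Finset.sum_congr rfl fun a _ => ?_
        rw [C_mul, C_neg]; ring
      have h5 : C ((d1 t)⁻¹) * C (d1 t) = (1 : F[X]) := by
        rw [← C_mul, inv_mul_cancel₀ hdt, C_1]
      rw [h3, h4]
      linear_combination (C ((d1 t)⁻¹)) * h1 - (ph t : F[X]) * h5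
  choose! ct dt hrep using hrep
  set c' : ℕ → F := fun a => c a + ∑ t ∈ T, d t * ct t a with hc'
  set d' : ℕ × ℕ → F := fun u => ∑ t ∈ T, d t * dt t u with hd'
  have hHe : ∑ a ∈ E, C (c a) * (X : F[X]) ^ a + ∑ t ∈ T, C (d t) * ph t =
      ∑ a ∈ E, C (c' a) * (X : F[X]) ^ a + ∑ u ∈ T', C (d' u) * ph u := by
    have h1 : ∑ t ∈ T, C (d t) * (ph t : F[X]) =
        ∑ a ∈ E, C (∑ t ∈ T, d t * ct t a) * (X : F[X]) ^ a +
          ∑ u ∈ T', C (∑ t ∈ T, d t * dt t u) * ph u := by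
      have h2 : ∀ t ∈ T, C (d t) * (ph t : F[X]) =
          ∑ a ∈ E, C (d t * ct t a) * (X : F[X]) ^ a + ∑ u ∈ T', C (d t * dt t u) * ph u := by
        intro t ht
        conv_lhs => rw [hrep t ht]
        rw [mul_add, Finset.mul_sum, Finset.mul_sum]
        congr 1
        · refine Finset.sum_congr rfl fun a _ => ?_
          rw [C_mul]; ring
        · refine Finset.sum_congr rfl fun a _ => ?_
          rw [C_mul]; ring
      rw [Finset.sum_congr rfl h2, Finset.sum_add_distrib]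
      congr 1
      · rw [Finset.sum_comm]
        refine Finset.sum_congr rfl fun a _ => ?_
        rw [map_sum, Finset.sum_mul]
      · rw [Finset.sum_comm]
        refine Finset.sum_congr rfl fun a _ => ?_
        rw [map_sum, Finset.sum_mul]
    rw [h1, ← add_assoc, ← Finset.sum_add_distrib]
    congr 1
    refine Finset.sum_congr rfl fun a _ => ?_
    rw [hc', C_add]; ring
  obtain ⟨a0, ha0, hca0⟩ : ∃ a0 ∈ E, c' a0 ≠ 0 := by
    by_contra hcon
    push Not at hcon
    refine hH (fun u => if u ∈ T' then d' u else 0) ?_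
    rw [hHe, Finset.sum_eq_zero (fun a ha => by rw [hcon a ha, C_0, zero_mul]), zero_add]
    rw [← Finset.sum_subset hsub]
    · refine Finset.sum_congr rfl fun u hu => ?_
      rw [if_pos hu]
    · intro u _ hu
      rw [if_neg hu, C_0, zero_mul]
  -- enumerate `T'`
  obtain ⟨m, hm⟩ : ∃ m, m = T'.card := ⟨_, rfl⟩
  let en : Fin m ≃ T' := (T'.equivFinOfCardEq hm.symm).symm
  let s : Fin m → ℕ × ℕ := fun j => ((en j : T') : ℕ × ℕ)
  have hs : ∀ j, s j ∈ T' := fun j => (en j).2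
  have hsum : ∀ g : ℕ × ℕ → F[X], ∑ u ∈ T', g u = ∑ j, g (s j) := by
    intro g
    rw [← Finset.sum_coe_sort]
    exact (Equiv.sum_comp en (fun x : T' => g x)).symm
  have hfin := zest_ind p E hE m s (fun j => hT _ (hsub (hs j))) ?_ c' (fun j => d' (s j)) a0 ha0 hca0
    M ?_
  · have hle : m ≤ T.card := by rw [hm]; exact card_le_card hsub
    have h1 : 2 * (m + 1) * (E.card - 1) ≤ 2 * (T.card + 1) * (E.card - 1) :=
      Nat.mul_le_mul_right _ (by omega)
    have h2 : m * (m + 1) ≤ T.card * (T.card + 1) := Nat.mul_le_mul hle (by omega)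
    omega
  · intro c1 d1 h1
    have hd : ∃ d2 : ℕ × ℕ → F, ∀ j, d2 (s j) = d1 j := by
      refine ⟨fun u => if h : u ∈ T' then d1 (en.symm ⟨u, h⟩) else 0, fun j => ?_⟩
      simp only [dif_pos (hs j)]
      congr 1
      exact en.symm_apply_apply j
    obtain ⟨d2, hd2⟩ := hd
    obtain ⟨h2, h3⟩ := hind c1 d2 (by
      rw [hsum (fun u => C (d2 u) * ph u), ← h1]
      congr 1
      refine Finset.sum_congr rfl fun j _ => ?_
      rw [hd2])
    refine ⟨h2, fun j => ?_⟩
    rw [← hd2]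
    exact h3 _ (hs j)
  · rw [← hsum (fun u => C (d' u) * ph u), ← hHe]
    exact hM

end Pool.Agent.Y374.RP
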