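import Mathlib
import Pool.Agent.Y374.RP.ZE3
import Pool.Agent.Y374.RP.Final

/-!
# The distribution of the representations as a sum of two regular indices
-/

set_option autoImplicit false

namespace Pool.Agent.Y374.RP

open Polynomial Finset Pool.Agent.TH350.WZ Pool.Agent.TH350.SumReg Pool.Agent.H332R2
open Pool.Agent.TH10.RP (two_types)

section Gen

variable (p : ℕ) [hp : Fact p.Prime]

/-- `X (X+1)^(2i) + X^(2(N-i)) (X+1)^(2i)` -/
noncomputable def BC (N i : ℕ) : (ZMod p)[X] :=
  X * (X + 1) ^ (2 * i) + X ^ (2 * (N - i)) * (X + 1) ^ (2 * i)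

lemma BC_eq (N i : ℕ) : BC p N i = ph (1, 2 * i) + ph (2 * (N - i), 2 * i) := by
  unfold BC ph
  simp only [pow_one]

lemma ww_symm (N i : ℕ) (hi : i ≤ N) : ww p N (N - i) = ww p N i := by
  unfold ww
  rw [show N - (N - i) = i by omega, mul_comm]

lemma X1_natDegree (m : ℕ) : ((X + 1 : (ZMod p)[X]) ^ m).natDegree ≤ m := by
  refine natDegree_pow_le.trans ?_
  have : (X + 1 : (ZMod p)[X]).natDegree ≤ 1 := by compute_degree
  nlinarith

lemma X1_coeff_top (m : ℕ) : ((X + 1 : (ZMod p)[X]) ^ m).coeff m = 1 := by
  rw [coeff_X_add_one_pow, Nat.choose_self, Nat.cast_one]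

lemma X1_coeff_zero (m : ℕ) : ((X + 1 : (ZMod p)[X]) ^ m).coeff 0 = 1 := by
  rw [coeff_X_add_one_pow, Nat.choose_zero_right, Nat.cast_one]

/-- coefficients of `BC` strictly between its two blocks -/
lemma BC_coeff_mid (N V i a : ℕ) (hi : i ≤ V) (h1 : 2 * V + 1 < a) (h2 : a < 2 * (N - V) ∨ 2 * N < a) :
    (BC p N i).coeff a = 0 := by
  unfold BC
  rw [coeff_add]
  have e1 : (X * (X + 1 : (ZMod p)[X]) ^ (2 * i)).coeff a = 0 := by
    obtain ⟨b, rfl⟩ : ∃ b, a = b + 1 := ⟨a - 1, by omega⟩
    rw [coeff_X_mul]
    exact coeff_eq_zero_of_natDegree_lt (lt_of_le_of_lt (X1_natDegree p _) (by omega))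
  have e2 : (X ^ (2 * (N - i)) * (X + 1 : (ZMod p)[X]) ^ (2 * i)).coeff a = 0 := by
    rw [coeff_X_pow_mul']
    split_ifs with h
    · refine coeff_eq_zero_of_natDegree_lt (lt_of_le_of_lt (X1_natDegree p _) ?_)
      omega
    · rfl
  rw [e1, e2, add_zero]

lemma BC_coeff_low (N V i : ℕ) (hi : i ≤ V) (hV : 2 * V < N) :
    (BC p N i).coeff (2 * V + 1) = if i = V then 1 else 0 := by
  unfold BC
  rw [coeff_add, coeff_X_mul, coeff_X_pow_mul', if_neg (by omega), add_zero]
  split_ifs with h
  · rw [h, X1_coeff_top]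
  · exact coeff_eq_zero_of_natDegree_lt (lt_of_le_of_lt (X1_natDegree p _) (by omega))

lemma BC_coeff_high (N V i : ℕ) (hi : i ≤ V) (hV : 2 * V < N) :
    (BC p N i).coeff (2 * (N - V)) = if i = V then 1 else 0 := by
  unfold BC
  rw [coeff_add, coeff_X_pow_mul']
  have e1 : (X * (X + 1 : (ZMod p)[X]) ^ (2 * i)).coeff (2 * (N - V)) = 0 := by
    obtain ⟨b, hb⟩ : ∃ b, 2 * (N - V) = b + 1 := ⟨2 * (N - V) - 1, by omega⟩
    rw [hb, coeff_X_mul]
    exact coeff_eq_zero_of_natDegree_lt (lt_of_le_of_lt (X1_natDegree p _) (by omega))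
  rw [e1, zero_add]
  by_cases h : i = V
  · rw [if_pos h, h, if_pos le_rfl, Nat.sub_self, X1_coeff_zero]
  · rw [if_neg h, if_neg (by omega)]

/-- coefficients of the monomial part -/
lemma A_coeff (N a : ℕ) (w : ℕ → ZMod p) :
    (∑ i ∈ range (N + 1), C (w i) * ((X + 1) * (X : (ZMod p)[X]) ^ (2 * i))).coeff a =
      if a ≤ 2 * N + 1 then w (a / 2) else 0 := by
  rw [finsetSum_coeff]
  have h1 : ∀ i, (C (w i) * ((X + 1) * (X : (ZMod p)[X]) ^ (2 * i))).coeff a =
      if i = a / 2 then w i else 0 := by
    intro i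
    rw [coeff_C_mul, add_mul, one_mul, ← pow_succ', coeff_add, coeff_X_pow, coeff_X_pow]
    rcases Nat.even_or_odd' a with ⟨b, hb | hb⟩
    · rw [if_neg (by omega), zero_add]
      by_cases h : i = b
      · rw [if_pos (by omega), if_pos (by omega), mul_one]
      · rw [if_neg (by omega), if_neg (by omega), mul_zero]
    · by_cases h : i = b
      · rw [if_pos (by omega), if_neg (by omega), if_pos (by omega), add_zero, mul_one]
      · rw [if_neg (by omega), if_neg (by omega), if_neg (by omega), add_zero, mul_zero]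
  rw [Finset.sum_congr rfl (fun i _ => h1 i), Finset.sum_ite_eq' (range (N + 1)) (a / 2)]
  by_cases h : a ≤ 2 * N + 1
  · rw [if_pos h, if_pos (mem_range.2 (by omega))]
  · rw [if_neg h, if_neg (by rw [mem_range]; omega)]

/-- relations between the functions of the second and third type are trivial -/
lemma BC_indep (N : ℕ) (hN : 2 * N + 3 ≤ p) (β γ : ℕ → ZMod p)
    (h : ∑ i ∈ range (N + 1), (C (β i) * (ph (1, 2 * i) : (ZMod p)[X]) +
      C (γ i) * ph (2 * (N - i), 2 * i)) = 0) :
    ∀ i ∈ range (N + 1), β i = 0 ∧ γ i = 0 := by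
  have h1 := two_types p N hN (fun _ => 0) β γ (by
    intro x
    have h2 := congrArg (eval x) h
    rw [eval_finsetSum, eval_zero] at h2
    refine (Finset.sum_congr rfl fun i _ => ?_).trans h2
    unfold ph
    simp only [pow_one, eval_add, eval_mul, eval_C, eval_X, eval_pow, eval_one]
    ring) (Or.inl fun _ _ => rfl)
  intro i hi
  exact (h1 i hi).2

end Gen

section Cases

variable (p : ℕ) [hp : Fact p.Prime] (N V : ℕ) (hN : 2 * N + 3 ≤ p) (hN2 : 2 ≤ N) (hV : 2 * V < N)

/-- the middle indices of representations -/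
noncomputable def JJ (N V : ℕ) : Finset ℕ := (Ioo V (N - V)).filter (fun i => ww p N i ≠ 0)

lemma mem_JJ (i : ℕ) : i ∈ JJ p N V ↔ (V < i ∧ i < N - V) ∧ ww p N i ≠ 0 := by
  unfold JJ
  rw [mem_filter, mem_Ioo]

/-- the two families of functions of the second and third kind with indices in `J` -/
def TT (N : ℕ) (J : Finset ℕ) : Finset (ℕ × ℕ) :=
  J.image (fun i => (1, 2 * i)) ∪ J.image (fun i => (2 * (N - i), 2 * i))

lemma TT_card (J : Finset ℕ) : (TT N J).card ≤ 2 * J.card := by
  unfold TT
  have e1 := card_union_le (J.image (fun i => (1, 2 * i))) (J.image (fun i => (2 * (N - i), 2 * i)))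
  have e2 := card_image_le (s := J) (f := fun i => (1, 2 * i))
  have e3 := card_image_le (s := J) (f := fun i => (2 * (N - i), 2 * i))
  omega

lemma TT_sum (J : Finset ℕ) (d : ℕ × ℕ → ZMod p) :
    ∑ t ∈ TT N J, C (d t) * (ph t : (ZMod p)[X]) =
      ∑ i ∈ J, (C (d (1, 2 * i)) * (ph (1, 2 * i) : (ZMod p)[X]) +
        C (d (2 * (N - i), 2 * i)) * ph (2 * (N - i), 2 * i)) := by
  unfold TT
  rw [sum_union, sum_image, sum_image, ← sum_add_distrib]
  · intro a _ b _ h
    simp only [Prod.mk.injEq] at h
    omega
  · intro a _ b _ h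
    simp only [Prod.mk.injEq] at h
    omega
  · rw [disjoint_left]
    intro t ht ht'
    rw [mem_image] at ht ht'
    obtain ⟨a, _, rfl⟩ := ht
    obtain ⟨b, _, h⟩ := ht'
    simp only [Prod.mk.injEq] at h
    omega

include hN hN2 in
/-- the relation -/
lemma relation : ∑ i ∈ range (N + 1), C (ww p N i) * ((X + 1) * (X : (ZMod p)[X]) ^ (2 * i)) =
    ∑ i ∈ range (N + 1), C (ww p N i) * BC p N i := by
  have h := identity_poly (p := p) N hN2 hN
  rw [← sub_eq_zero, ← Finset.sum_sub_distrib, ← neg_eq_zero, ← Finset.sum_neg_distrib]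
  refine (Finset.sum_congr rfl fun i _ => ?_).trans h
  unfold BC
  ring

include hN hN2 hV in
theorem case_ends (hne : ∃ i, i ≤ V ∧ ww p N i ≠ 0) :
    2 * (N - V) ≤ (2 * (JJ p N V).card + 1) * (4 * V + 3 * (JJ p N V).card + 1) := by
  classical
  set J := JJ p N V with hJ
  have hJm : ∀ i, i ∈ J ↔ (V < i ∧ i < N - V) ∧ ww p N i ≠ 0 := mem_JJ p N V
  set w : ℕ → ZMod p := ww p N with hw
  have hsym : ∀ i, i ≤ N → w (N - i) = w i := fun i hi => ww_symm p N i hi
  set Q : (ZMod p)[X] := ∑ i ∈ range (N + 1), C (w i) * ((X + 1) * X ^ (2 * i)) -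
    ∑ i ∈ range (V + 1), C (w i) * BC p N i with hQ
  set Hc : (ZMod p)[X] := ∑ i ∈ Icc (N - V) N, C (w i) * BC p N i with hHc
  set E : Finset ℕ := (range (2 * V + 1) ∪ Icc (2 * N - 2 * V + 1) (2 * N + 1)) ∪
    (J.image (fun i => 2 * i) ∪ J.image (fun i => 2 * i + 1)) with hE
  -- splitting the range
  have hsplit : range (N + 1) = (range (V + 1) ∪ Ioo V (N - V)) ∪ Icc (N - V) N := by
    ext i
    rw [mem_union, mem_union, mem_range, mem_range, mem_Ioo, mem_Icc]
    omega
  have hrel : Hc = Q - ∑ i ∈ J, C (w i) * BC p N i := by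
    have h1 := relation p N hN hN2
    rw [← hw] at h1
    have h2 : ∑ i ∈ range (N + 1), C (w i) * BC p N i =
        ∑ i ∈ range (V + 1), C (w i) * BC p N i + ∑ i ∈ J, C (w i) * BC p N i + Hc := by
      rw [hsplit, sum_union, sum_union]
      · congr 2
        rw [hJ]
        unfold JJ
        rw [sum_filter]
        refine sum_congr rfl fun i _ => ?_
        split_ifs with h
        · rfl
        · push Not at h
          rw [hw, h, C_0, zero_mul]
      · rw [disjoint_left]
        intro i hi hi'
        rw [mem_range] at hi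
        rw [mem_Ioo] at hi'
        omega
      · rw [disjoint_left]
        intro i hi hi'
        rw [mem_union, mem_range, mem_Ioo] at hi
        rw [mem_Icc] at hi'
        omega
    rw [hQ]
    linear_combination -h1 - h2
  have hcoef : ∀ a, a ∉ E → Q.coeff a = 0 := by
    intro a ha
    rw [hE, mem_union, mem_union, mem_union, mem_range, mem_Icc, mem_image, mem_image] at ha
    push Not at ha
    obtain ⟨⟨h1, h2⟩, h3, h4⟩ := ha
    rw [hQ, coeff_sub, A_coeff, finsetSum_coeff]
    rcases Nat.lt_or_ge (2 * N + 1) a with h5 | h5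
    · rw [if_neg (by omega), zero_sub, neg_eq_zero]
      refine sum_eq_zero fun i hi => ?_
      rw [mem_range] at hi
      rw [coeff_C_mul, BC_coeff_mid p N V i a (by omega) (by omega) (Or.inr (by omega)), mul_zero]
    · rw [if_pos h5]
      have h6 : a ≤ 2 * (N - V) := by
        by_contra h
        have := h2 (by omega)
        omega
      rcases Nat.lt_trichotomy a (2 * V + 1) with h7 | h7 | h7
      · omega
      · rw [h7]
        have h8 : ∀ i ∈ range (V + 1), (C (w i) * BC p N i).coeff (2 * V + 1) =
            if i = V then w i else 0 := by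
          intro i hi
          rw [mem_range] at hi
          rw [coeff_C_mul, BC_coeff_low p N V i (by omega) hV]
          split_ifs <;> simp
        rw [sum_congr rfl h8, sum_ite_eq' (range (V + 1)) V, if_pos (mem_range.2 (by omega)),
          show (2 * V + 1) / 2 = V by omega, sub_self]
      · rcases Nat.lt_or_ge a (2 * (N - V)) with h8 | h8
        · have h9 : w (a / 2) = 0 := by
            by_contra hne
            have h10 : a / 2 ∈ J := (hJm _).2 ⟨by omega, hne⟩
            rcases Nat.even_or_odd' a with ⟨b, hb | hb⟩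
            · exact h3 (a / 2) h10 (by omega)
            · exact h4 (a / 2) h10 (by omega)
          rw [h9, zero_sub, neg_eq_zero]
          refine sum_eq_zero fun i hi => ?_
          rw [mem_range] at hi
          rw [coeff_C_mul, BC_coeff_mid p N V i a (by omega) h7 (Or.inl h8), mul_zero]
        · have h9 : a = 2 * (N - V) := by omega
          rw [h9]
          have h8 : ∀ i ∈ range (V + 1), (C (w i) * BC p N i).coeff (2 * (N - V)) =
              if i = V then w i else 0 := by
            intro i hi
            rw [mem_range] at hi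
            rw [coeff_C_mul, BC_coeff_high p N V i (by omega) hV]
            split_ifs <;> simp
          rw [sum_congr rfl h8, sum_ite_eq' (range (V + 1)) V, if_pos (mem_range.2 (by omega)),
            show 2 * (N - V) / 2 = N - V by omega, hsym V (by omega), sub_self]
  have hQe : Q = ∑ a ∈ E, C (Q.coeff a) * X ^ a := by
    ext b
    rw [finsetSum_coeff]
    simp only [coeff_C_mul, coeff_X_pow, mul_ite, mul_one, mul_zero]
    rw [Finset.sum_ite_eq E b]
    split_ifs with hb
    · rfl
    · exact hcoef b hb
  -- the function `d`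
  have hmid : ∑ t ∈ TT N J, C (- w (t.2 / 2)) * (ph t : (ZMod p)[X]) =
      - ∑ i ∈ J, C (w i) * BC p N i := by
    rw [TT_sum, ← sum_neg_distrib]
    refine sum_congr rfl fun i _ => ?_
    simp only
    rw [show 2 * i / 2 = i by omega, BC_eq, C_neg]
    ring
  have hHe : ∑ a ∈ E, C (Q.coeff a) * (X : (ZMod p)[X]) ^ a +
      ∑ t ∈ TT N J, C (- w (t.2 / 2)) * (ph t : (ZMod p)[X]) = Hc := by
    rw [← hQe, hmid, hrel]
    ring
  have hEcard : E.card ≤ 4 * V + 2 + 2 * J.card := by
    rw [hE]
    have e1 := card_union_le (range (2 * V + 1) ∪ Icc (2 * N - 2 * V + 1) (2 * N + 1))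
      (J.image (fun i => 2 * i) ∪ J.image (fun i => 2 * i + 1))
    have e2 := card_union_le (range (2 * V + 1)) (Icc (2 * N - 2 * V + 1) (2 * N + 1))
    have e3 := card_union_le (J.image (fun i => 2 * i)) (J.image (fun i => 2 * i + 1))
    have e4 := card_image_le (s := J) (f := fun i => 2 * i)
    have e5 := card_image_le (s := J) (f := fun i => 2 * i + 1)
    rw [card_range, Nat.card_Icc] at e2
    omega
  have hz := zest_gen (F := ZMod p) p E ?_ (TT N J) ?_ (fun a => Q.coeff a)
    (fun t => - w (t.2 / 2)) (2 * (N - V)) ?_ ?_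
  · have hT := TT_card N J
    set ρ := J.card
    have h1 : 2 * ((TT N J).card + 1) * (E.card - 1) ≤ 2 * (2 * ρ + 1) * (4 * V + 1 + 2 * ρ) :=
      Nat.mul_le_mul (by omega) (by omega)
    have h2 : (TT N J).card * ((TT N J).card + 1) ≤ 2 * ρ * (2 * ρ + 1) :=
      Nat.mul_le_mul (by omega) (by omega)
    nlinarith
  · intro a ha
    rw [hE, mem_union, mem_union, mem_union, mem_range, mem_Icc, mem_image, mem_image] at ha
    rcases ha with (h | h) | ⟨i, hi, h⟩ | ⟨i, hi, h⟩
    · omega
    · omega
    · have := (hJm i).1 hi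
      omega
    · have := (hJm i).1 hi
      omega
  · intro t ht
    unfold TT at ht
    rw [mem_union, mem_image, mem_image] at ht
    rcases ht with ⟨i, hi, rfl⟩ | ⟨i, hi, rfl⟩
    · have := (hJm i).1 hi
      simp only
      omega
    · have := (hJm i).1 hi
      simp only
      omega
  · rw [hHe, hHc]
    refine Finset.dvd_sum fun i hi => ?_
    rw [mem_Icc] at hi
    refine Dvd.dvd.mul_left ?_ _
    unfold BC
    have h1 : (X + 1 : (ZMod p)[X]) ^ (2 * (N - V)) ∣ (X + 1) ^ (2 * i) := pow_dvd_pow _ (by omega)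
    exact dvd_add (h1.mul_left _) (h1.mul_left _)
  · intro d' hd'
    rw [hHe, TT_sum, hHc] at hd'
    have h1 := BC_indep p N hN
      (fun i => if i ∈ J then - d' (1, 2 * i) else if N - V ≤ i then w i else 0)
      (fun i => if i ∈ J then - d' (2 * (N - i), 2 * i) else if N - V ≤ i then w i else 0) (by
        rw [hsplit, sum_union, sum_union]
        · rw [sum_eq_zero (s := range (V + 1)), zero_add]
          · have e1 : ∑ x ∈ Ioo V (N - V), (C (if x ∈ J then - d' (1, 2 * x) else
                if N - V ≤ x then w x else 0) * (ph (1, 2 * x) : (ZMod p)[X]) +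
                C (if x ∈ J then - d' (2 * (N - x), 2 * x) else
                if N - V ≤ x then w x else 0) * ph (2 * (N - x), 2 * x)) =
                - ∑ i ∈ J, (C (d' (1, 2 * i)) * (ph (1, 2 * i) : (ZMod p)[X]) +
                C (d' (2 * (N - i), 2 * i)) * ph (2 * (N - i), 2 * i)) := by
              rw [← sum_neg_distrib]
              have hJs : J ⊆ Ioo V (N - V) := by
                rw [hJ]; unfold JJ; exact filter_subset _ _
              rw [← sum_subset hJs]
              · refine sum_congr rfl fun i hi => ?_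
                rw [if_pos hi, if_pos hi, C_neg, C_neg]
                ring
              · intro i hi hiJ
                rw [mem_Ioo] at hi
                rw [if_neg hiJ, if_neg hiJ, if_neg (by omega), C_0, zero_mul, zero_mul, add_zero]
            have e2 : ∑ x ∈ Icc (N - V) N, (C (if x ∈ J then - d' (1, 2 * x) else
                if N - V ≤ x then w x else 0) * (ph (1, 2 * x) : (ZMod p)[X]) +
                C (if x ∈ J then - d' (2 * (N - x), 2 * x) else
                if N - V ≤ x then w x else 0) * ph (2 * (N - x), 2 * x)) =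
                ∑ i ∈ Icc (N - V) N, C (w i) * BC p N i := by
              refine sum_congr rfl fun i hi => ?_
              rw [mem_Icc] at hi
              have hiJ : i ∉ J := by
                rw [hJm]
                omega
              rw [if_neg hiJ, if_neg hiJ, if_pos hi.1, BC_eq]
              ring
            rw [e1, e2, hd']
            ring
          · intro i hi
            rw [mem_range] at hi
            have hiJ : i ∉ J := by
              rw [hJm]
              omega
            rw [if_neg hiJ, if_neg hiJ, if_neg (by omega), C_0, zero_mul, zero_mul, add_zero]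
        · rw [disjoint_left]
          intro i hi hi'
          rw [mem_range] at hi
          rw [mem_Ioo] at hi'
          omega
        · rw [disjoint_left]
          intro i hi hi'
          rw [mem_union, mem_range, mem_Ioo] at hi
          rw [mem_Icc] at hi'
          omega)
    obtain ⟨i, hi, hwi⟩ := hne
    have h2 := (h1 (N - i) (mem_range.2 (by omega))).1
    have hiJ : N - i ∉ J := by
      rw [hJm]
      omega
    simp only [if_neg hiJ, if_pos (show N - V ≤ N - i by omega)] at h2
    rw [hsym i (by omega)] at h2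
    exact hwi h2

end Cases

end Pool.Agent.Y374.RP
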