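import Mathlib
import Pool.Agent.Y374.RP.Star

/-!
# The distribution of the representations as a sum of two regular indices (2)
-/

set_option autoImplicit false

namespace Pool.Agent.Y374.RP

open Polynomial Finset Pool.Agent.TH350.WZ Pool.Agent.TH350.SumReg Pool.Agent.H332R2

section Cases

variable (p : ℕ) [hp : Fact p.Prime] (N V : ℕ) (hN : 2 * N + 3 ≤ p) (hN2 : 2 ≤ N) (hV : 2 * V < N)

/-- the two families of functions of the second and third kind, divided by `X (X + 1)` -/
def TO (N : ℕ) (J : Finset ℕ) : Finset (ℕ × ℕ) :=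
  J.image (fun i => (0, 2 * i - 1)) ∪ J.image (fun i => (2 * (N - i) - 1, 2 * i - 1))

lemma TO_card (J : Finset ℕ) : (TO N J).card ≤ 2 * J.card := by
  unfold TO
  have e1 := card_union_le (J.image (fun i => (0, 2 * i - 1)))
    (J.image (fun i => (2 * (N - i) - 1, 2 * i - 1)))
  have e2 := card_image_le (s := J) (f := fun i => (0, 2 * i - 1))
  have e3 := card_image_le (s := J) (f := fun i => (2 * (N - i) - 1, 2 * i - 1))
  omega

lemma TO_sum (J : Finset ℕ) (hJ : ∀ i ∈ J, 1 ≤ i ∧ i < N) (d : ℕ × ℕ → ZMod p) :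
    ∑ t ∈ TO N J, C (d t) * (ph t : (ZMod p)[X]) =
      ∑ i ∈ J, (C (d (0, 2 * i - 1)) * (ph (0, 2 * i - 1) : (ZMod p)[X]) +
        C (d (2 * (N - i) - 1, 2 * i - 1)) * ph (2 * (N - i) - 1, 2 * i - 1)) := by
  unfold TO
  rw [sum_union, sum_image, sum_image, ← sum_add_distrib]
  · intro a ha b hb h
    have := hJ a ha
    have := hJ b hb
    simp only [Prod.mk.injEq] at h
    omega
  · intro a ha b hb h
    have := hJ a ha
    have := hJ b hb
    simp only [Prod.mk.injEq] at h
    omega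
  · rw [disjoint_left]
    intro t ht ht'
    rw [mem_image] at ht ht'
    obtain ⟨a, ha, rfl⟩ := ht
    obtain ⟨b, hb, h⟩ := ht'
    have := hJ a ha
    have := hJ b hb
    simp only [Prod.mk.injEq] at h
    omega

include hN hN2 hV in
theorem case_noends (hno : ∀ i, i ≤ V → ww p N i = 0) (hex : ∃ i, i ≤ N ∧ ww p N i ≠ 0) :
    2 * N + 5 * (JJ p N V).card ≤ 4 * (JJ p N V).card ^ 2 + 3 := by
  classical
  set J := JJ p N V with hJ
  have hJm : ∀ i, i ∈ J ↔ (V < i ∧ i < N - V) ∧ ww p N i ≠ 0 := mem_JJ p N V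
  set w : ℕ → ZMod p := ww p N with hw
  have hsym : ∀ i, i ≤ N → w (N - i) = w i := fun i hi => ww_symm p N i hi
  have hall : ∀ i, i ≤ N → w i ≠ 0 → i ∈ J := by
    intro i hi hwi
    rw [hJm]
    refine ⟨⟨?_, ?_⟩, hwi⟩
    · by_contra h
      exact hwi (hno i (by omega))
    · by_contra h
      have := hno (N - i) (by omega)
      rw [hsym i hi] at this
      exact hwi this
  have hJne : J.Nonempty := by
    obtain ⟨i, hi, hwi⟩ := hex
    exact ⟨i, hall i hi hwi⟩
  set k := J.min' hJne with hk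
  have hkJ : k ∈ J := J.min'_mem hJne
  have hkmin : ∀ i ∈ J, k ≤ i := fun i hi => J.min'_le i hi
  have hJ1 : ∀ i ∈ J, 1 ≤ i ∧ i < N := by
    intro i hi
    have := (hJm i).1 hi
    omega
  have hk1 := hJ1 k hkJ
  have hrefl : ∀ i ∈ J, N - i ∈ J := by
    intro i hi
    have h1 := hJ1 i hi
    refine hall (N - i) (by omega) ?_
    rw [hsym i (by omega)]
    exact ((hJm i).1 hi).2
  have hkmax : ∀ i ∈ J, i ≤ N - k := by
    intro i hi
    have h1 := hkmin (N - i) (hrefl i hi)
    have := hJ1 i hi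
    omega
  have hk2 : k ≤ N - k := hkmax k hkJ
  set ρ := J.card with hρ
  have hρ1 : 1 ≤ ρ := card_pos.2 hJne
  -- the relation, divided by `X (X + 1)`
  have hXX : (X * (X + 1) : (ZMod p)[X]) ≠ 0 := mul_ne_zero X_ne_zero (X_add_C_ne_zero 1)
  have hfac : ∀ i ∈ J, (X + 1) * (X : (ZMod p)[X]) ^ (2 * i) = X * (X + 1) * X ^ (2 * i - 1) ∧
      BC p N i = X * (X + 1) * (ph (0, 2 * i - 1) + ph (2 * (N - i) - 1, 2 * i - 1)) := by
    intro i hi
    obtain ⟨h1, h2⟩ := hJ1 i hi
    obtain ⟨a, ha⟩ : ∃ a, 2 * i = a + 1 := ⟨2 * i - 1, by omega⟩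
    obtain ⟨b, hb⟩ : ∃ b, 2 * (N - i) = b + 1 := ⟨2 * (N - i) - 1, by omega⟩
    constructor
    · rw [ha, Nat.add_sub_cancel, pow_succ]
      ring
    · unfold BC ph
      simp only
      rw [ha, hb, Nat.add_sub_cancel, Nat.add_sub_cancel, pow_succ, pow_succ, pow_zero]
      ring
  have hrel0 : ∑ i ∈ J, C (w i) * (X : (ZMod p)[X]) ^ (2 * i - 1) =
      ∑ i ∈ J, C (w i) * (ph (0, 2 * i - 1) + ph (2 * (N - i) - 1, 2 * i - 1)) := by
    have h1 := relation p N hN hN2
    rw [← hw] at h1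
    have hsub : J ⊆ range (N + 1) := by
      intro i hi
      have := hJ1 i hi
      rw [mem_range]; omega
    have h2 : ∀ g : ℕ → (ZMod p)[X], ∑ i ∈ range (N + 1), C (w i) * g i = ∑ i ∈ J, C (w i) * g i := by
      intro g
      refine (sum_subset hsub fun i hi hiJ => ?_).symm
      rw [mem_range] at hi
      have : w i = 0 := by
        by_contra h
        exact hiJ (hall i (by omega) h)
      rw [this, C_0, zero_mul]
    rw [h2, h2] at h1
    apply mul_left_cancel₀ hXX
    rw [Finset.mul_sum, Finset.mul_sum]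
    calc ∑ i ∈ J, X * (X + 1) * (C (w i) * (X : (ZMod p)[X]) ^ (2 * i - 1)) =
          ∑ i ∈ J, C (w i) * ((X + 1) * X ^ (2 * i)) := by
          refine sum_congr rfl fun i hi => ?_
          rw [(hfac i hi).1]; ring
      _ = ∑ i ∈ J, C (w i) * BC p N i := h1
      _ = _ := by
          refine sum_congr rfl fun i hi => ?_
          rw [(hfac i hi).2]; ring
  -- the exponents
  set E : Finset ℕ := J.image (fun i => 2 * i - 1) with hE
  have hEc : E.card ≤ ρ := card_image_le
  have hEp : ∀ a ∈ E, a < p := by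
    intro a ha
    rw [hE, mem_image] at ha
    obtain ⟨i, hi, rfl⟩ := ha
    have := hJ1 i hi
    omega
  have hEsum : ∑ a ∈ E, C (w ((a + 1) / 2)) * (X : (ZMod p)[X]) ^ a =
      ∑ i ∈ J, C (w i) * (X : (ZMod p)[X]) ^ (2 * i - 1) := by
    rw [hE, sum_image]
    · refine sum_congr rfl fun i hi => ?_
      have := hJ1 i hi
      rw [show (2 * i - 1 + 1) / 2 = i by omega]
    · intro a ha b hb h
      have := hJ1 a ha
      have := hJ1 b hb
      simp only at h
      omega
  -- the smallest index is small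
  have hdvdph : ∀ (m a b : ℕ), m ≤ b → (X + 1 : (ZMod p)[X]) ^ m ∣ ph (a, b) := by
    intro m a b h
    unfold ph
    exact (pow_dvd_pow _ h).mul_left _
  have hka : 2 * k ≤ ρ := by
    have hz := zest_gen (F := ZMod p) p E hEp ∅ (fun t ht => absurd ht (notMem_empty t))
      (fun a => w ((a + 1) / 2)) (fun _ => 0) (2 * k - 1) ?_ ?_
    · rw [card_empty] at hz
      omega
    · rw [sum_empty, add_zero, hEsum, hrel0]
      refine Finset.dvd_sum fun i hi => Dvd.dvd.mul_left ?_ _
      have := hkmin i hi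
      exact dvd_add (hdvdph _ _ _ (by omega)) (hdvdph _ _ _ (by omega))
    · intro d'
      rw [sum_empty, sum_empty, add_zero, hEsum]
      intro h0
      have h1 := congrArg (fun P => coeff P (2 * k - 1)) h0
      simp only [finsetSum_coeff, coeff_C_mul, coeff_X_pow, coeff_zero] at h1
      rw [sum_eq_single k] at h1
      · rw [if_pos rfl, mul_one] at h1
        exact ((hJm k).1 hkJ).2 h1
      · intro b hb hbk
        have := hJ1 b hb
        rw [if_neg (by omega), mul_zero]
      · intro h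
        exact absurd hkJ h
  -- the main estimate
  set J' := J.erase (N - k) with hJ'
  have hNkJ : N - k ∈ J := hrefl k hkJ
  have hJ'c : J'.card = ρ - 1 := card_erase_of_mem hNkJ
  have hJ'1 : ∀ i ∈ J', 1 ≤ i ∧ i < N := fun i hi => hJ1 i (mem_of_mem_erase hi)
  set Hc : (ZMod p)[X] := C (w k) * (ph (0, 2 * (N - k) - 1) +
    ph (2 * (N - (N - k)) - 1, 2 * (N - k) - 1)) with hHc
  have hHe : ∑ a ∈ E, C (w ((a + 1) / 2)) * (X : (ZMod p)[X]) ^ a +
      ∑ t ∈ TO N J', C (- w ((t.2 + 1) / 2)) * (ph t : (ZMod p)[X]) = Hc := by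
    rw [hEsum, hrel0, TO_sum p N J' hJ'1, ← add_sum_erase J _ hNkJ, hHc, hsym k (by omega)]
    have h1 : ∑ i ∈ J', (C (- w ((2 * i - 1 + 1) / 2)) * (ph (0, 2 * i - 1) : (ZMod p)[X]) +
        C (- w ((2 * i - 1 + 1) / 2)) * ph (2 * (N - i) - 1, 2 * i - 1)) =
        - ∑ i ∈ J', C (w i) * (ph (0, 2 * i - 1) + ph (2 * (N - i) - 1, 2 * i - 1)) := by
      rw [← sum_neg_distrib]
      refine sum_congr rfl fun i hi => ?_
      have := hJ'1 i hi
      rw [show (2 * i - 1 + 1) / 2 = i by omega, C_neg]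
      ring
    rw [h1]
    ring
  have hz := zest_gen (F := ZMod p) p E hEp (TO N J') ?_
    (fun a => w ((a + 1) / 2)) (fun t => - w ((t.2 + 1) / 2)) (2 * (N - k) - 1) ?_ ?_
  · have hT := TO_card N J'
    rw [hJ'c] at hT
    obtain ⟨σ, hσ⟩ : ∃ σ, ρ = σ + 1 := ⟨ρ - 1, by omega⟩
    rw [hσ, Nat.add_sub_cancel] at hT
    have h1 : 2 * ((TO N J').card + 1) * (E.card - 1) ≤ 2 * (2 * σ + 1) * σ :=
      Nat.mul_le_mul (by omega) (by omega)
    have h2 : (TO N J').card * ((TO N J').card + 1) ≤ 2 * σ * (2 * σ + 1) :=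
      Nat.mul_le_mul (by omega) (by omega)
    have h3 : 2 * (2 * (N - k) - 1) ≤ 2 * (2 * σ + 1) * σ + 2 * σ * (2 * σ + 1) := by omega
    have h4 : 2 * (2 * σ + 1) * σ + 2 * σ * (2 * σ + 1) = 8 * σ ^ 2 + 4 * σ := by ring
    have h5 : 4 * (σ + 1) ^ 2 = 4 * σ ^ 2 + 8 * σ + 4 := by ring
    rw [hσ, h5]
    omega
  · intro t ht
    unfold TO at ht
    rw [mem_union, mem_image, mem_image] at ht
    rcases ht with ⟨i, hi, rfl⟩ | ⟨i, hi, rfl⟩
    · have := hJ'1 i hi
      simp only
      omega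
    · have := hJ'1 i hi
      simp only
      omega
  · rw [hHe, hHc]
    exact Dvd.dvd.mul_left (dvd_add (hdvdph _ _ _ le_rfl) (hdvdph _ _ _ le_rfl)) _
  · intro d' hd'
    rw [hHe, TO_sum p N J' hJ'1, hHc] at hd'
    have h1 := BC_indep p N hN
      (fun i => if i ∈ J' then - d' (0, 2 * i - 1) else if i = N - k then w k else 0)
      (fun i => if i ∈ J' then - d' (2 * (N - i) - 1, 2 * i - 1) else if i = N - k then w k else 0) (by
        have hsub : insert (N - k) J' ⊆ range (N + 1) := by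
          intro i hi
          rw [mem_insert] at hi
          rw [mem_range]
          rcases hi with h | h
          · omega
          · have := hJ'1 i h
            omega
        rw [← sum_subset hsub]
        · rw [sum_insert (notMem_erase _ _)]
          have hn1 : N - k ∉ J' := notMem_erase _ _
          rw [if_neg hn1, if_neg hn1, if_pos rfl]
          have e1 : ∑ i ∈ J', (C (if i ∈ J' then - d' (0, 2 * i - 1) else
              if i = N - k then w k else 0) * (ph (1, 2 * i) : (ZMod p)[X]) +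
              C (if i ∈ J' then - d' (2 * (N - i) - 1, 2 * i - 1) else
              if i = N - k then w k else 0) * ph (2 * (N - i), 2 * i)) =
              - (X * (X + 1) * ∑ i ∈ J', (C (d' (0, 2 * i - 1)) * (ph (0, 2 * i - 1) : (ZMod p)[X]) +
              C (d' (2 * (N - i) - 1, 2 * i - 1)) * ph (2 * (N - i) - 1, 2 * i - 1))) := by
            rw [Finset.mul_sum, ← sum_neg_distrib]
            refine sum_congr rfl fun i hi => ?_
            rw [if_pos hi, if_pos hi, C_neg, C_neg]
            obtain ⟨h1, h2⟩ := hJ'1 i hi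
            obtain ⟨a, ha⟩ : ∃ a, 2 * i = a + 1 := ⟨2 * i - 1, by omega⟩
            obtain ⟨b, hb⟩ : ∃ b, 2 * (N - i) = b + 1 := ⟨2 * (N - i) - 1, by omega⟩
            unfold ph
            simp only
            rw [ha, hb, Nat.add_sub_cancel, Nat.add_sub_cancel]
            ring
          rw [e1, ← hd']
          obtain ⟨a, ha⟩ : ∃ a, 2 * (N - k) = a + 1 := ⟨2 * (N - k) - 1, by omega⟩
          obtain ⟨b, hb⟩ : ∃ b, 2 * (N - (N - k)) = b + 1 := ⟨2 * (N - (N - k)) - 1, by omega⟩
          unfold ph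
          simp only
          rw [ha, hb, Nat.add_sub_cancel, Nat.add_sub_cancel]
          ring
        · intro i hi hi'
          rw [mem_insert] at hi'
          push Not at hi'
          rw [if_neg hi'.2, if_neg hi'.2, if_neg hi'.1, C_0, zero_mul, zero_mul, add_zero])
    have h2 := (h1 (N - k) (mem_range.2 (by omega))).1
    have hn1 : N - k ∉ J' := notMem_erase _ _
    simp only [if_neg hn1, if_true] at h2
    exact ((hJm k).1 hkJ).2 h2

include hN hN2 hV in
/-- the main theorem -/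
theorem star : 2 * (N - V) ≤ (2 * (JJ p N V).card + 1) * (4 * V + 3 * (JJ p N V).card + 1) := by
  by_cases h : ∃ i, i ≤ V ∧ ww p N i ≠ 0
  · exact case_ends p N V hN hN2 hV h
  · push Not at h
    obtain ⟨i, h1, h2, h3⟩ := two_exists_all p N hN hN2
    have h4 := case_noends p N V hN hN2 hV h ⟨i, h1, by unfold ww; exact mul_ne_zero h2 h3⟩
    set ρ := (JJ p N V).card
    have h5 : (2 * ρ + 1) * (3 * ρ + 1) ≤ (2 * ρ + 1) * (4 * V + 3 * ρ + 1) :=
      Nat.mul_le_mul_left _ (by omega)
    have h6 : (2 * ρ + 1) * (3 * ρ + 1) = 6 * ρ ^ 2 + 5 * ρ + 1 := by ring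
    rcases Nat.eq_zero_or_pos ρ with h0 | h0
    · rw [h0] at h4
      omega
    · have h7 : 1 ≤ ρ ^ 2 := Nat.one_le_pow _ _ h0
      omega

end Cases

end Pool.Agent.Y374.RP
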